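import Pool.Agent.J6H73.P1.Ext

/-!
# The exceptional set has density zero, and the two inequalities with the heights of the image
-/

set_option autoImplicit false
set_option linter.unusedSectionVars false

namespace Pool.Agent.J6H73.P1

open NumberField IsDedekindDomain Module Polynomial Height Pool.Agent.N753.DR

/-- the minimal polynomials of the numbers of degree `r` over `K` of absolute height at most `T` -/
def Nm (K : Type) [Field K] [NumberField K] (r : ℕ) (T : ℝ) : Set K[X] :=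
  {p | p.natDegree = r ∧ ∃ (M : Type) (_ : Field M) (_ : NumberField M) (_ : Algebra K M) (x : M),
    finrank K M = r ∧ minpoly K x = p ∧ logHeight₁ x / finrank ℚ M ≤ T}

theorem Nm_eq (K : Type) [Field K] [NumberField K] (r : ℕ) (T : ℝ) :
    Nm K r T = {p | AtH r (r * finrank ℚ K * T) p} := by
  have hK : 0 < finrank ℚ K := finrank_pos
  have key : ∀ (M : Type) [Field M] [NumberField M] [Algebra K M] (x : M),
      finrank K M = r → (logHeight₁ x / finrank ℚ M ≤ T ↔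
        logHeight₁ x ≤ r * finrank ℚ K * T) := by
    intro M _ _ _ x hM
    have h1 : finrank ℚ K * finrank K M = finrank ℚ M :=
      finrank_mul_finrank ℚ K M
    rw [hM] at h1
    have h2 : (0 : ℝ) < finrank ℚ M := by
      exact_mod_cast (finrank_pos : 0 < finrank ℚ M)
    rw [div_le_iff₀ h2, ← h1]
    push_cast
    rw [mul_comm T, mul_comm (r : ℝ)]
  ext p
  constructor
  · rintro ⟨hp, M, _, _, _, x, hM, hx, hT⟩
    exact ⟨M, _, _, _, x, hM, by rw [hx, hp], hx, (key M x hM).1 hT⟩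
  · rintro ⟨M, _, _, _, x, hM, hr, hx, hT⟩
    exact ⟨by rw [← hx, hr], M, _, _, _, x, hM, hx, (key M x hM).2 hT⟩

theorem density (K : Type) [Field K] [NumberField K] (r : ℕ) (hr : 1 ≤ r) {E : Set K[X]}
    (hE : ∀ U : ℝ, 0 ≤ U →
      ({p | p ∈ E ∧ AtH r U p}.ncard : ℝ) ≤ 5 * Real.exp ((r + 1) * U - √U)) :
    (∀ T : ℝ, (Nm K r T).Finite) ∧
    (∃ c T₀ : ℝ, 0 < c ∧ ∀ T : ℝ, T₀ ≤ T →
      c * Real.exp (r * (r + 1) * finrank ℚ K * T) ≤ (Nm K r T).ncard) ∧
    ∃ C : ℝ, ∀ T : ℝ, 0 ≤ T → ((E ∩ Nm K r T).ncard : ℝ) ≤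
      C * Real.exp (-√T) * (Nm K r T).ncard := by
  have hn : (1 : ℝ) ≤ finrank ℚ K := by
    exact_mod_cast (finrank_pos : 0 < finrank ℚ K)
  have hr' : (1 : ℝ) ≤ r := by exact_mod_cast hr
  have hrn : (1 : ℝ) ≤ r * finrank ℚ K := one_le_mul_of_one_le_of_one_le hr' hn
  obtain ⟨Ca, hCa, hall⟩ := Pool.Agent.N130.PC.Cnt.t K r hr
  obtain ⟨c, U₀, hc, htot⟩ := Pool.Agent.N31.FR.t K r hr
  have hfin0 : ∀ T : ℝ, 0 ≤ T → (Nm K r T).Finite := by
    intro T hT
    rw [Nm_eq K r]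
    exact (hall _ (by positivity)).1
  have hfin : ∀ T : ℝ, (Nm K r T).Finite := by
    intro T
    refine (hfin0 (max T 0) (le_max_right _ _)).subset ?_
    rintro p ⟨hp, M, _, _, _, x, hM, hx, hT⟩
    exact ⟨hp, M, _, _, _, x, hM, hx, hT.trans (le_max_left _ _)⟩
  have hlow : ∀ T : ℝ, U₀ ≤ r * finrank ℚ K * T →
      c * Real.exp (r * (r + 1) * finrank ℚ K * T) ≤ (Nm K r T).ncard := by
    intro T hT
    obtain ⟨F, hF, hcard⟩ := htot _ hT
    have h1 : (F.card : ℝ) ≤ (Nm K r T).ncard := by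
      rw [← Set.ncard_coe_finset F]
      have h2 : (F : Set K[X]) ⊆ Nm K r T := by
        intro p hp
        rw [Nm_eq K r]
        exact hF p hp
      exact_mod_cast Set.ncard_le_ncard h2 (hfin T)
    refine le_trans (le_of_eq ?_) (hcard.trans h1)
    congr 2
    ring
  have hup : ∀ T : ℝ, 0 ≤ T → ((E ∩ Nm K r T).ncard : ℝ) ≤
      5 * Real.exp (r * (r + 1) * finrank ℚ K * T) * Real.exp (-√T) := by
    intro T hT
    have h1 := hE (r * finrank ℚ K * T) (by positivity)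
    have h2 : E ∩ Nm K r T =
        {p | p ∈ E ∧ AtH r (r * finrank ℚ K * T) p} := by
      rw [Nm_eq K r]; rfl
    rw [h2]
    refine h1.trans ?_
    rw [mul_assoc 5 (Real.exp _) (Real.exp _), ← Real.exp_add]
    refine mul_le_mul_of_nonneg_left (Real.exp_le_exp.2 ?_) (by norm_num)
    have h3 : √T ≤ √(r * finrank ℚ K * T) :=
      Real.sqrt_le_sqrt (le_mul_of_one_le_left hT hrn)
    have h4 : ((r : ℝ) + 1) * (r * finrank ℚ K * T) =
        r * (r + 1) * finrank ℚ K * T := by ring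
    rw [h4]
    linarith
  refine ⟨hfin, ⟨c, max U₀ 0, hc, fun T hT => hlow T ?_⟩, ?_⟩
  · have h1 : 0 ≤ T := (le_max_right _ _).trans hT
    have h2 : U₀ ≤ T := (le_max_left _ _).trans hT
    exact h2.trans (le_mul_of_one_le_left h1 hrn)
  · set T₁ : ℝ := max U₀ 0 with hT₁
    have hT₁0 : 0 ≤ T₁ := le_max_right _ _
    set D : ℝ := 5 * Real.exp (r * (r + 1) * finrank ℚ K * T₁) with hD
    refine ⟨max (5 / c) D, fun T hT => ?_⟩
    rcases le_or_gt T₁ T with hle | hlt
    · have h1 := hlow T (((le_max_left _ _).trans hle).trans (le_mul_of_one_le_left hT hrn))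
      calc ((E ∩ Nm K r T).ncard : ℝ) ≤ _ := hup T hT
        _ = 5 / c * Real.exp (-√T) *
            (c * Real.exp (r * (r + 1) * finrank ℚ K * T)) := by
            field_simp
        _ ≤ 5 / c * Real.exp (-√T) * (Nm K r T).ncard :=
            mul_le_mul_of_nonneg_left h1 (by positivity)
        _ ≤ _ := by
            gcongr
            exact le_max_left _ _
    · rcases Set.eq_empty_or_nonempty (Nm K r T) with he | hne
      · rw [he]; simp
      · have h1 : (1 : ℝ) ≤ (Nm K r T).ncard := by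
          exact_mod_cast (Set.ncard_pos (hfin T)).2 hne
        calc ((E ∩ Nm K r T).ncard : ℝ) ≤ _ := hup T hT
          _ ≤ D * Real.exp (-√T) := by
              rw [hD]
              gcongr
          _ = D * Real.exp (-√T) * 1 := by ring
          _ ≤ D * Real.exp (-√T) * (Nm K r T).ncard :=
              mul_le_mul_of_nonneg_left h1 (by positivity)
          _ ≤ _ := by
              gcongr
              exact le_max_right _ _

/-- from a bound by the height of the parameter to a bound by the heights of the coordinates -/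
theorem to_image {n a b κ₁ κ₂ C1 C2 C3 h h₁ h₂ c δ : ℝ} (hδ : δ = n - κ₁ * a - κ₂ * b)
    (h1 : (n - δ) * h ≤ c + C1)
    (h2 : |h₁ - a * h| ≤ C2) (h3 : |h₂ - b * h| ≤ C3) :
    κ₁ * h₁ + κ₂ * h₂ ≤ c + (C1 + |κ₁| * C2 + |κ₂| * C3) := by
  have e1 : κ₁ * (h₁ - a * h) ≤ |κ₁| * C2 := by
    calc _ ≤ |κ₁ * (h₁ - a * h)| := le_abs_self _
      _ = |κ₁| * |h₁ - a * h| := abs_mul _ _
      _ ≤ _ := mul_le_mul_of_nonneg_left h2 (abs_nonneg _)
  have e2 : κ₂ * (h₂ - b * h) ≤ |κ₂| * C3 := by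
    calc _ ≤ |κ₂ * (h₂ - b * h)| := le_abs_self _
      _ = |κ₂| * |h₂ - b * h| := abs_mul _ _
      _ ≤ _ := mul_le_mul_of_nonneg_left h3 (abs_nonneg _)
  have e3 : (n - δ) * h = κ₁ * (a * h) + κ₂ * (b * h) := by rw [hδ]; ring
  linarith

theorem final1 {K : Type} [Field K] [NumberField K] {r : ℕ} {E : Set K[X]} (hE : ExcB K r E)
    {a b q s : ℕ} {A B : Fin 2 → K[X]} (hA : IsMap a A)
    (hB : IsMap b B) {F : MvPolynomial (Fin 2 ⊕ Fin 2) K}
    (hF : F.IsWeightedHomogeneous wts (q, s))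
    (hR : MvPolynomial.aeval (Sum.elim A B) F ≠ 0) (S : Finset ℕ) (hS : ∀ p ∈ S, p ≠ 0)
    (κ₁ κ₂ : ℝ)
    (hκ : κ₁ * a + κ₂ * b < pts r (MvPolynomial.aeval (Sum.elim A B) F) (a * q + b * s)) :
    ∃ C : ℝ, ∀ (M : Type) [Field M] [NumberField M] [Algebra K M] (x : M), finrank K M = r →
      (minpoly K x).natDegree = r → minpoly K x ∉ E →
      aeval x (MvPolynomial.aeval (Sum.elim A B) F) ≠ 0 →
      κ₁ * logHeight (fun i => aeval x (A i)) + κ₂ * logHeight (fun i => aeval x (B i)) ≤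
        cnt S F q s (fun i => aeval x (A i)) (fun i => aeval x (B i)) + C := by
  obtain ⟨C1, h1⟩ := main1 hE hA hB hF hR S hS
    ((pts r (MvPolynomial.aeval (Sum.elim A B) F) (a * q + b * s) : ℝ) - κ₁ * a - κ₂ * b)
    (by linarith)
  obtain ⟨C2, -, h2⟩ := ht_map hA r
  obtain ⟨C3, -, h3⟩ := ht_map hB r
  exact ⟨C1 + |κ₁| * C2 + |κ₂| * C3, fun M _ _ _ x hM hx hxE hRx => to_image rfl (h1 M x hM hx hxE hRx) (h2 M x hM.le) (h3 M x hM.le)⟩

theorem final2 {K : Type} [Field K] [NumberField K] {r : ℕ} {E : Set K[X]} (hE : ExcB K r E)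
    {k : Type} [Field k] [NumberField k] [Algebra K k]
    {a b q s : ℕ} {A B : Fin 2 → k[X]} (hA : IsMap a A)
    (hB : IsMap b B) {F : MvPolynomial (Fin 2 ⊕ Fin 2) k}
    (hF : F.IsWeightedHomogeneous wts (q, s))
    (hR : MvPolynomial.aeval (Sum.elim A B) F ≠ 0) (S : Finset ℕ) (hS : ∀ p ∈ S, p ≠ 0)
    (κ₁ κ₂ : ℝ)
    (hκ : κ₁ * a + κ₂ * b < pts2 K r (MvPolynomial.aeval (Sum.elim A B) F) (a * q + b * s)) :
    ∃ C : ℝ, ∀ (M : Type) [Field M] [NumberField M] [Algebra K M] [Algebra k M]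
      [IsScalarTower K k M] (x : M), IntermediateField.adjoin k {x} = ⊤ →
      (minpoly K x).natDegree = r → minpoly K x ∉ E →
      aeval x (MvPolynomial.aeval (Sum.elim A B) F) ≠ 0 →
      κ₁ * logHeight (fun i => aeval x (A i)) + κ₂ * logHeight (fun i => aeval x (B i)) ≤
        cnt S F q s (fun i => aeval x (A i)) (fun i => aeval x (B i)) + C := by
  obtain ⟨C1, h1⟩ := main2 hE hA hB hF hR S hS
    ((pts2 K r (MvPolynomial.aeval (Sum.elim A B) F) (a * q + b * s) : ℝ) - κ₁ * a - κ₂ * b)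
    (by linarith)
  obtain ⟨C2, -, h2⟩ := ht_map hA r
  obtain ⟨C3, -, h3⟩ := ht_map hB r
  refine ⟨C1 + |κ₁| * C2 + |κ₂| * C3, fun M _ _ _ _ _ x hadj hx hxE hRx => ?_⟩
  have hfdM : FiniteDimensional K M := Module.Finite.of_restrictScalars_finite ℚ K M
  have hfr : finrank k M ≤ r := by rw [← hx]; exact finrank_le hadj
  exact to_image rfl (h1 M x hadj hx hxE hRx) (h2 M x hfr) (h3 M x hfr)

end Pool.Agent.J6H73.P1
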