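import Pool.Agent.J6H73.P1.Loc
import Pool.Agent.N490.FR.Ht

/-!
# Rational curves on `ℙ¹ × ℙ¹`: the primes at which a point of the curve meets the divisor
-/

set_option autoImplicit false
set_option linter.unusedSectionVars false

namespace Pool.Agent.J6H73.P1

open NumberField IsDedekindDomain Module Polynomial Height Pool.Agent.N753.DR
open Pool.Agent.J6H73.SB (pole_val')

/-- the values of finitely many polynomials at the points near a closed point -/
theorem val_fin {k : Type} [Field k] [NumberField k] {Q : k[X]} (hQ : Irreducible Q) {ι : Type}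
    [Fintype ι] (P : ι → k[X]) : ∃ d : ℕ, d ≠ 0 ∧ ∀ (M : Type) [Field M] [NumberField M]
      [Algebra k M] (x : M) (w : HeightOneSpectrum (𝓞 M)), (d : 𝓞 M) ∉ w.asIdeal →
      w.valuation M x ≤ 1 → w.valuation M (aeval x Q) < 1 → ∀ i,
        w.valuation M (aeval x (P i)) ≤ 1 ∧ (¬ Q ∣ P i → w.valuation M (aeval x (P i)) = 1) ∧
        (Q ∣ P i → w.valuation M (aeval x (P i)) < 1) := by
  classical
  have h1 : ∀ i, ∃ d : ℕ, d ≠ 0 ∧ ∀ (M : Type) [Field M] [NumberField M]
      [Algebra k M] (x : M) (w : HeightOneSpectrum (𝓞 M)), (d : 𝓞 M) ∉ w.asIdeal →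
      w.valuation M x ≤ 1 → w.valuation M (aeval x Q) < 1 →
        w.valuation M (aeval x (P i)) ≤ 1 ∧ (¬ Q ∣ P i → w.valuation M (aeval x (P i)) = 1) ∧
        (Q ∣ P i → w.valuation M (aeval x (P i)) < 1) := by
    intro i
    by_cases h : Q ∣ P i
    · obtain ⟨d, hd, h2⟩ := pole_val' (K := k) hQ (F := 1) (G := P i)
        (fun h3 => hQ.not_isUnit (isUnit_of_dvd_one h3)) h
      refine ⟨d, hd, fun M _ _ _ x w hw hx hQx => ?_⟩
      have h3 := (h2 M x w hw hx hQx).1
      exact ⟨h3.le, fun h4 => absurd h h4, fun _ => h3⟩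
    · obtain ⟨d, hd, h2⟩ := pole_val' (K := k) hQ (F := P i) (G := Q) h (dvd_refl Q)
      refine ⟨d, hd, fun M _ _ _ x w hw hx hQx => ?_⟩
      have h3 := (h2 M x w hw hx hQx).2
      exact ⟨h3.le, fun _ => h3, fun h4 => absurd h4 h⟩
  choose d hd h using h1
  refine ⟨∏ i, d i, Finset.prod_ne_zero_iff.2 fun i _ => hd i, ?_⟩
  intro M _ _ _ x w hw hx hQx i
  refine h i M x w (fun h2 => hw ?_) hx hQx
  rw [Nat.cast_prod]
  exact Ideal.mem_of_dvd _ (Finset.dvd_prod_of_mem (fun i => (d i : 𝓞 M)) (Finset.mem_univ i)) h2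

theorem aeval_aeval {k M : Type} [Field k] [Field M] [Algebra k M] (x : M) (A B : Fin 2 → k[X])
    (F : MvPolynomial (Fin 2 ⊕ Fin 2) k) : aeval x (MvPolynomial.aeval (Sum.elim A B) F) =
      MvPolynomial.aeval (Sum.elim (fun i => aeval x (A i)) (fun i => aeval x (B i))) F := by
  rw [MvPolynomial.comp_aeval_apply]
  congr 2
  funext i
  cases i <;> rfl

/-- the local height at the primes where a point of the curve meets the divisor -/
theorem near_lam {k : Type} [Field k] [NumberField k] {Q : k[X]} (hQ : Irreducible Q)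
    (A B : Fin 2 → k[X]) {F : MvPolynomial (Fin 2 ⊕ Fin 2) k} (q s : ℕ) (hF : F ≠ 0)
    (hA : ∃ i, ¬ Q ∣ A i) (hB : ∃ i, ¬ Q ∣ B i) (hR : Q ∣ MvPolynomial.aeval (Sum.elim A B) F) :
    ∃ d : ℕ, d ≠ 0 ∧ ∀ (M : Type) [Field M] [NumberField M]
      [Algebra k M] (x : M) (w : HeightOneSpectrum (𝓞 M)), (d : 𝓞 M) ∉ w.asIdeal →
      w.valuation M x ≤ 1 → w.valuation M (aeval x Q) < 1 →
      MvPolynomial.aeval (Sum.elim (fun i => aeval x (A i)) (fun i => aeval x (B i))) F ≠ 0 →
      lN w ≤ lam F q s w (fun i => aeval x (A i)) (fun i => aeval x (B i)) := by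
  classical
  obtain ⟨d, hd, h⟩ := val_fin hQ (ι := Fin 2 ⊕ Fin 2 ⊕ Unit ⊕ F.support)
    (Sum.elim A (Sum.elim B (Sum.elim (fun _ => MvPolynomial.aeval (Sum.elim A B) F)
      (fun d => C (F.coeff d.1)))))
  refine ⟨d, hd, fun M _ _ _ x w hw hx hQx h0 => ?_⟩
  have h1 := h M x w hw hx hQx
  refine lN_le_lam q s w h0 ?_ ?_ ?_ ?_
  · have h2 := (h1 (Sum.inr (Sum.inr (Sum.inl ())))).2.2 hR
    rw [← aeval_aeval]
    exact h2
  · have h2 : ∀ d : F.support, FinitePlace.mk w (algebraMap k M (F.coeff d.1)) = 1 := by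
      intro d
      have h3 := (h1 (Sum.inr (Sum.inr (Sum.inr d)))).2.1 (by
        intro h4
        have h5 : F.coeff d.1 ≠ 0 := MvPolynomial.mem_support_iff.1 d.2
        exact hQ.not_isUnit (isUnit_of_dvd_unit h4 (isUnit_C.2 (isUnit_iff_ne_zero.2 h5))))
      have h4 : w.valuation M (algebraMap k M (F.coeff d.1)) = 1 := by
        have h5 : aeval x (C (F.coeff d.1)) = algebraMap k M (F.coeff d.1) := aeval_C _ _
        rw [← h5]
        exact h3
      exact mk_eq_one h4
    obtain ⟨d0, hd0⟩ := MvPolynomial.support_nonempty.2 hF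
    haveI : Nonempty F.support := ⟨⟨d0, hd0⟩⟩
    simp only [h2, ciSup_const]
  · refine sup2_eq_one (fun i => (h1 (Sum.inl i)).1) ?_
    obtain ⟨i, hi⟩ := hA
    exact ⟨i, (h1 (Sum.inl i)).2.1 hi⟩
  · refine sup2_eq_one (fun i => (h1 (Sum.inr (Sum.inl i))).1) ?_
    obtain ⟨i, hi⟩ := hB
    exact ⟨i, (h1 (Sum.inr (Sum.inl i))).2.1 hi⟩

/-- `x ↦ (A 0 (x) : A 1 (x))` is a map from the projective line to itself of degree `a` -/
structure IsMap {k : Type} [Field k] (a : ℕ) (A : Fin 2 → k[X]) : Prop where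
  degree_le : ∀ i, (A i).natDegree ≤ a
  degree_eq : ∃ i, (A i).natDegree = a
  coprime : ∃ u : Fin 2 → k[X], ∑ i, u i * A i = 1

section Map

variable {k : Type} [Field k] {a : ℕ} {A : Fin 2 → k[X]}

theorem IsMap.not_dvd (hA : IsMap a A) {Q : k[X]} (hQ : Irreducible Q) : ∃ i, ¬ Q ∣ A i := by
  by_contra hcon
  push Not at hcon
  obtain ⟨u, hu⟩ := hA.coprime
  refine hQ.not_isUnit (isUnit_of_dvd_one ?_)
  rw [← hu]
  exact Finset.dvd_sum fun i _ => Dvd.dvd.mul_left (hcon i) _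

theorem IsMap.coeff_ne (hA : IsMap a A) : ∃ i, (A i).coeff a ≠ 0 := by
  rcases Nat.eq_zero_or_pos a with ha | ha
  · subst ha
    obtain ⟨i, hi⟩ := hA.not_dvd (Q := X) irreducible_X
    refine ⟨i, fun h => hi ?_⟩
    exact X_dvd_iff.2 h
  · obtain ⟨i, hi⟩ := hA.degree_eq
    refine ⟨i, ?_⟩
    rw [← hi]
    intro h
    have h1 : A i = 0 := leadingCoeff_eq_zero.1 h
    rw [h1, natDegree_zero] at hi
    omega

theorem IsMap.isCoprime (hA : IsMap a A) : IsCoprime (A 0) (A 1) := by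
  obtain ⟨u, hu⟩ := hA.coprime
  rw [Fin.sum_univ_two] at hu
  exact ⟨u 0, u 1, hu⟩

theorem IsMap.max_eq (hA : IsMap a A) : max (A 0).natDegree (A 1).natDegree = a := by
  refine le_antisymm (max_le (hA.degree_le 0) (hA.degree_le 1)) ?_
  obtain ⟨i, hi⟩ := hA.degree_eq
  fin_cases i
  · exact hi ▸ le_max_left _ _
  · exact hi ▸ le_max_right _ _

theorem IsMap.eval_ne (hA : IsMap a A) {M : Type} [Field M] [Algebra k M] (x : M) :
    (fun i => aeval x (A i)) ≠ 0 := by
  intro h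
  obtain ⟨u, hu⟩ := hA.coprime
  have h1 : aeval x (∑ i, u i * A i) = 1 := by rw [hu, map_one]
  rw [map_sum] at h1
  have h2 : ∀ i, aeval x (A i) = 0 := fun i => congrFun h i
  simp [map_mul, h2] at h1

end Map

theorem pair_eq {M : Type} (f : Fin 2 → M) : f = ![f 0, f 1] := by
  funext i
  fin_cases i <;> rfl

/-- the height of the image of a point under a map -/
theorem ht_map {k : Type} [Field k] [NumberField k] {a : ℕ} {A : Fin 2 → k[X]} (hA : IsMap a A)
    (r : ℕ) : ∃ C : ℝ, 0 ≤ C ∧ ∀ (M : Type) [Field M] [NumberField M] [Algebra k M] (x : M),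
      finrank k M ≤ r →
      |logHeight (fun i => aeval x (A i)) - a * logHeight₁ x| ≤ C := by
  classical
  have h1 : ∀ n : ℕ, ∃ C : ℝ, ∀ (M : Type) [Field M] [NumberField M] [Algebra k M] (x : M),
      finrank k M = n → aeval x (A 1) ≠ 0 →
        |logHeight (fun i => aeval x (A i)) - a * logHeight₁ x| ≤ C := by
    intro n
    obtain ⟨C, hC⟩ := Pool.Agent.N490.FR.Ht.t k (A 0) (A 1) hA.isCoprime n
    refine ⟨C, fun M _ _ _ x hM hx => ?_⟩
    obtain ⟨h2, h3⟩ := hC M x hM hx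
    rw [hA.max_eq] at h2 h3
    have h4 : logHeight₁ (aeval x (A 0) / aeval x (A 1)) = logHeight (fun i => aeval x (A i)) := by
      rw [logHeight₁_div_eq_logHeight, pair_eq (fun i => aeval x (A i))]
    rw [h4] at h2 h3
    rw [abs_le]
    constructor <;> linarith
  choose C hC using h1
  obtain ⟨D, hD0, hD⟩ : ∃ D : ℝ, 0 ≤ D ∧ ∀ (M : Type) [Field M] [NumberField M] [Algebra k M]
      (x : M), finrank k M ≤ r → aeval x (A 1) = 0 → (a : ℝ) * logHeight₁ x ≤ D := by
    by_cases hA1 : A 1 = 0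
    · refine ⟨0, le_rfl, fun M _ _ _ x _ _ => ?_⟩
      have h2 : IsUnit (A 0) := by
        have := hA.isCoprime
        rw [hA1, isCoprime_zero_right] at this
        exact this
      have h3 : a = 0 := by
        rw [← hA.max_eq, hA1, natDegree_zero, natDegree_eq_zero_of_isUnit h2]
        rfl
      rw [h3]
      simp
    · obtain ⟨D, hD, h⟩ := Pool.Agent.N751.LS.ht_poly_root (K := k) (A 1) hA1
      refine ⟨a * ((finrank ℚ k * r : ℕ) * D), by positivity, fun M _ _ _ x hM hx => ?_⟩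
      have h2 := h M x hx
      have h3 : finrank ℚ k * finrank k M = finrank ℚ M := finrank_mul_finrank ℚ k M
      have h4 : (finrank ℚ M : ℝ) ≤ (finrank ℚ k * r : ℕ) := by
        rw [← h3]
        exact_mod_cast Nat.mul_le_mul_left _ hM
      have h5 : logHeight₁ x ≤ (finrank ℚ k * r : ℕ) * D :=
        h2.trans (mul_le_mul_of_nonneg_right h4 hD)
      exact mul_le_mul_of_nonneg_left h5 (Nat.cast_nonneg _)
  have hsum : 0 ≤ ∑ n ∈ Finset.range (r + 1), |C n| := Finset.sum_nonneg fun n _ => abs_nonneg _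
  refine ⟨∑ n ∈ Finset.range (r + 1), |C n| + D, by linarith, fun M _ _ _ x hM => ?_⟩
  by_cases hx : aeval x (A 1) = 0
  · have h2 : logHeight (fun i => aeval x (A i)) = 0 := by
      rw [pair_eq (fun i => aeval x (A i)), ← logHeight₁_div_eq_logHeight, hx, div_zero,
        logHeight₁_zero]
    have h3 := hD M x hM hx
    have h4 : 0 ≤ (a : ℝ) * logHeight₁ x := mul_nonneg (Nat.cast_nonneg _) (zero_le_logHeight₁ x)
    rw [h2, zero_sub, abs_neg, abs_of_nonneg h4]
    linarith
  · have h2 := hC (finrank k M) M x rfl hx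
    have h3 : |C (finrank k M)| ≤ ∑ n ∈ Finset.range (r + 1), |C n| :=
      Finset.single_le_sum (f := fun n => |C n|) (fun n _ => abs_nonneg _)
        (Finset.mem_range.2 (by omega))
    have h4 := le_abs_self (C (finrank k M))
    linarith

section Top

variable {k : Type} [Field k] {a b : ℕ} {A B : Fin 2 → k[X]}

theorem coeff_top (hA : ∀ i, (A i).natDegree ≤ a) (hB : ∀ i, (B i).natDegree ≤ b)
    {F : MvPolynomial (Fin 2 ⊕ Fin 2) k} {q s : ℕ} (h : F.IsWeightedHomogeneous wts (q, s)) :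
    (MvPolynomial.aeval (Sum.elim A B) F).coeff (a * q + b * s) =
      MvPolynomial.aeval (Sum.elim (fun i => (A i).coeff a) (fun i => (B i).coeff b)) F := by
  rw [ev_eq, ev_eq, finset_sum_coeff]
  refine Finset.sum_congr rfl fun d hd => ?_
  obtain ⟨h1, h2⟩ := bihom_deg h (MvPolynomial.mem_support_iff.1 hd)
  have e : a * q + b * s = (d (Sum.inl 0) * a + d (Sum.inl 1) * a) +
      (d (Sum.inr 0) * b + d (Sum.inr 1) * b) := by
    rw [← h1, ← h2]; ring
  rw [← C_eq_algebraMap, coeff_C_mul, e]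
  have p1 : ∀ i n, ((A i) ^ n).natDegree ≤ n * a := fun i n =>
    natDegree_pow_le_of_le n (hA i)
  have p2 : ∀ i n, ((B i) ^ n).natDegree ≤ n * b := fun i n =>
    natDegree_pow_le_of_le n (hB i)
  rw [coeff_mul_add_eq_of_natDegree_le (natDegree_mul_le_of_le (p1 0 _) (p1 1 _))
    (natDegree_mul_le_of_le (p2 0 _) (p2 1 _)),
    coeff_mul_add_eq_of_natDegree_le (p1 0 _) (p1 1 _),
    coeff_mul_add_eq_of_natDegree_le (p2 0 _) (p2 1 _), coeff_pow_of_natDegree_le (hA 0),
    coeff_pow_of_natDegree_le (hA 1), coeff_pow_of_natDegree_le (hB 0),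
    coeff_pow_of_natDegree_le (hB 1)]
  rfl

theorem refl_eval {M : Type} [Field M] [Algebra k M] {x : M} (hx : x ≠ 0) {N : ℕ} {f : k[X]}
    (hf : f.natDegree ≤ N) : aeval x⁻¹ (reflect N f) = (x⁻¹) ^ N * aeval x f := by
  have hinv : Invertible x := invertibleOfNonzero hx
  have h5 := eval₂_reflect_mul_pow (algebraMap k M) x N f hf
  rw [← aeval_def, ← aeval_def, invOf_eq_inv] at h5
  rw [← h5, inv_pow]
  field_simp

theorem refl_coeff_zero (N : ℕ) (f : k[X]) : (reflect N f).coeff 0 = f.coeff N := by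
  rw [coeff_reflect, revAt_le (Nat.zero_le N), Nat.sub_zero]

/-- infinity is on the divisor if the degree of the restriction is small -/
theorem dvd_refl_top (hA : ∀ i, (A i).natDegree ≤ a) (hB : ∀ i, (B i).natDegree ≤ b)
    {F : MvPolynomial (Fin 2 ⊕ Fin 2) k} {q s : ℕ} (h : F.IsWeightedHomogeneous wts (q, s))
    (hR : (MvPolynomial.aeval (Sum.elim A B) F).natDegree < a * q + b * s) :
    X ∣ MvPolynomial.aeval (Sum.elim (fun i => reflect a (A i)) (fun i => reflect b (B i))) F := by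
  rw [X_dvd_iff]
  have h1 : ∀ f : k[X], f.coeff 0 = aeval (0 : k) f := fun f => by
    rw [coe_aeval_eq_eval, coeff_zero_eq_eval_zero]
  rw [h1, aeval_aeval]
  have h2 : (fun i => aeval (0 : k) (reflect a (A i))) = fun i => (A i).coeff a := by
    funext i
    rw [← h1, refl_coeff_zero]
  have h3 : (fun i => aeval (0 : k) (reflect b (B i))) = fun i => (B i).coeff b := by
    funext i
    rw [← h1, refl_coeff_zero]
  rw [h2, h3, ← coeff_top hA hB h]
  exact coeff_eq_zero_of_natDegree_lt hR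

end Top

end Pool.Agent.J6H73.P1
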