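import Pool.Agent.J6H73.P1.Main

/-!
# Rational curves on `ℙ¹ × ℙ¹` over extensions `k` of `K`: the truncated inequality over `k (x)` at
# almost all numbers `x` of degree `r` over `K`
-/

set_option autoImplicit false
set_option linter.unusedSectionVars false

namespace Pool.Agent.J6H73.P1

open NumberField IsDedekindDomain Module Polynomial Height Pool.Agent.N753.DR

section Map

variable {k : Type} [Field k] {a : ℕ} {A : Fin 2 → k[X]}

theorem natDegree_shift (f : k[X]) (c : k) : (f.comp (X + C c)).natDegree = f.natDegree := by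
  rw [natDegree_comp, natDegree_X_add_C, mul_one]

theorem IsMap.shift (hA : IsMap a A) (c : k) : IsMap a (fun i => (A i).comp (X + C c)) where
  degree_le i := by rw [natDegree_shift]; exact hA.degree_le i
  degree_eq := by
    obtain ⟨i, hi⟩ := hA.degree_eq
    exact ⟨i, by rw [natDegree_shift]; exact hi⟩
  coprime := by
    obtain ⟨u, hu⟩ := hA.coprime
    refine ⟨fun i => (u i).comp (X + C c), ?_⟩
    rw [Fin.sum_univ_two] at hu ⊢
    rw [← mul_comp, ← mul_comp, ← add_comp, hu, one_comp]

theorem shift_aeval {M : Type} [Field M] [Algebra k M] (f : k[X]) (c : k) (y : M) :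
    aeval y (f.comp (X + C c)) = aeval (y + algebraMap k M c) f := by
  rw [aeval_comp, map_add, aeval_X, aeval_C]

/-- the coordinates in the parameter `t`, `x = c + 1 / t` -/
noncomputable def co (a : ℕ) (A : Fin 2 → k[X]) (c : k) (i : Fin 2) : k[X] :=
  reflect a ((A i).comp (X + C c))

theorem co_aeval (hA : IsMap a A) {M : Type} [Field M] [Algebra k M] (c : k) {t : M} (ht : t ≠ 0)
    (i : Fin 2) : aeval t (co a A c i) = t ^ a * aeval (t⁻¹ + algebraMap k M c) (A i) := by
  have h1 := refl_eval (inv_ne_zero ht) ((hA.shift c).degree_le i)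
  rw [inv_inv, shift_aeval] at h1
  exact h1

theorem aeval_shift (A B : Fin 2 → k[X]) (F : MvPolynomial (Fin 2 ⊕ Fin 2) k) (c : k) :
    MvPolynomial.aeval (Sum.elim (fun i => (A i).comp (X + C c)) (fun i => (B i).comp (X + C c))) F =
      (MvPolynomial.aeval (Sum.elim A B) F).comp (X + C c) := by
  have h1 := aeval_aeval (k := k) (M := RatFunc k) (RatFunc.X + algebraMap k (RatFunc k) c) A B F
  have h2 := aeval_aeval (k := k) (M := RatFunc k) RatFunc.X
    (fun i => (A i).comp (X + C c)) (fun i => (B i).comp (X + C c)) F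
  simp only [shift_aeval] at h2
  rw [← h1, ← shift_aeval] at h2
  have h3 : ∀ f : k[X], aeval RatFunc.X f = algebraMap k[X] (RatFunc k) f := fun f => by
    rw [← RatFunc.algebraMap_X, aeval_algebraMap_apply, aeval_X_left_apply]
  rw [h3, h3] at h2
  exact IsFractionRing.injective k[X] (RatFunc k) h2

end Map

open Classical in
/-- the number of the `k`-rational points of the line of degree at most `2 r + 1` over `K` which are
over the divisor -/
noncomputable def pts2 (K : Type) {k : Type} [Field K] [Field k] [Algebra K k] (r : ℕ) (R : k[X])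
    (N : ℕ) : ℕ :=
  (R.roots.toFinset.filter fun α => (minpoly K α).natDegree ≤ 2 * r + 1).card +
    if R.natDegree < N then 1 else 0

theorem deg_le_of_mem {K k : Type} [Field K] [Field k] [Algebra K k] [FiniteDimensional K k]
    {α τ : k} (h : τ ∈ IntermediateField.adjoin K {α}) :
    (minpoly K τ).natDegree ≤ (minpoly K α).natDegree := by
  have h1 : finrank K (IntermediateField.adjoin K {α}) = (minpoly K α).natDegree :=
    IntermediateField.adjoin.finrank (IsIntegral.of_finite K α)
  have h2 : minpoly K (⟨τ, h⟩ : IntermediateField.adjoin K {α}) = minpoly K τ :=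
    (minpoly.algebraMap_eq (algebraMap (IntermediateField.adjoin K {α}) k).injective
      (⟨τ, h⟩ : IntermediateField.adjoin K {α})).symm
  rw [← h1, ← h2]
  exact minpoly.natDegree_le _

theorem finrank_le {K k M : Type} [Field K] [Field k] [Field M] [Algebra K k] [Algebra K M]
    [Algebra k M] [IsScalarTower K k M] [FiniteDimensional K M] [FiniteDimensional k M] {x : M}
    (h : IntermediateField.adjoin k {x} = ⊤) : finrank k M ≤ (minpoly K x).natDegree := by
  have h1 : finrank k (IntermediateField.adjoin k {x}) = (minpoly k x).natDegree :=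
    IntermediateField.adjoin.finrank (IsIntegral.of_finite k x)
  have h2 : finrank k (⊤ : IntermediateField k M) = finrank k M := IntermediateField.finrank_top'
  rw [h, h2] at h1
  rw [h1, ← natDegree_map (algebraMap K k)]
  refine natDegree_le_of_dvd (minpoly.dvd_map_of_isScalarTower K k x) ?_
  exact Polynomial.map_ne_zero (minpoly.ne_zero (IsIntegral.of_finite K x))

theorem main2 {K : Type} [Field K] [NumberField K] {r : ℕ} {E : Set K[X]} (hE : ExcB K r E)
    {k : Type} [Field k] [NumberField k] [Algebra K k] {a b q s : ℕ} {A B : Fin 2 → k[X]}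
    (hA : IsMap a A) (hB : IsMap b B) {F : MvPolynomial (Fin 2 ⊕ Fin 2) k}
    (hF : F.IsWeightedHomogeneous wts (q, s))
    (hR : MvPolynomial.aeval (Sum.elim A B) F ≠ 0) (S : Finset ℕ) (hS : ∀ p ∈ S, p ≠ 0)
    (κ : ℝ) (hκ : 0 < κ) :
    ∃ C : ℝ, ∀ (M : Type) [Field M] [NumberField M] [Algebra K M] [Algebra k M]
      [IsScalarTower K k M] (x : M), IntermediateField.adjoin k {x} = ⊤ →
      (minpoly K x).natDegree = r → minpoly K x ∉ E →
      aeval x (MvPolynomial.aeval (Sum.elim A B) F) ≠ 0 →
      ((pts2 K r (MvPolynomial.aeval (Sum.elim A B) F) (a * q + b * s) : ℝ) - κ) *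
        logHeight₁ x ≤ cnt S F q s (fun i => aeval x (A i)) (fun i => aeval x (B i)) + C := by
  classical
  have hF0 : F ≠ 0 := by rintro rfl; simp at hR
  have hfdk : FiniteDimensional K k := Module.Finite.of_restrictScalars_finite ℚ K k
  set R := MvPolynomial.aeval (Sum.elim A B) F with hRdef
  set N := a * q + b * s with hN
  -- the parameter
  obtain ⟨c, hc⟩ : ∃ c : K, algebraMap K k c ∉ R.roots.toFinset := by
    by_contra hcon
    push Not at hcon
    have h1 : (Set.univ : Set K).Finite := by
      refine Set.Finite.of_finite_image (f := algebraMap K k) ?_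
        ((algebraMap K k).injective.injOn)
      refine (R.roots.toFinset.finite_toSet).subset ?_
      rintro _ ⟨c, -, rfl⟩
      exact hcon c
    exact Set.infinite_univ h1
  set c' := algebraMap K k c with hc'
  have hcR : R.eval c' ≠ 0 := by
    intro h
    exact hc (Multiset.mem_toFinset.2 ((mem_roots hR).2 h))
  set P0 : Finset k := R.roots.toFinset.filter fun α => (minpoly K α).natDegree ≤ 2 * r + 1 with hP0
  have hP0m : ∀ α ∈ P0, R.eval α = 0 ∧ (minpoly K α).natDegree ≤ 2 * r + 1 := by
    intro α hα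
    rw [hP0, Finset.mem_filter, Multiset.mem_toFinset, mem_roots hR] at hα
    exact hα
  have hP0c : ∀ α ∈ P0, α - c' ≠ 0 := by
    intro α hα h
    have h1 : α = c' := sub_eq_zero.1 h
    exact hcR (h1 ▸ (hP0m α hα).1)
  set P1 : Finset k := P0.image fun α => (α - c')⁻¹ with hP1
  have hP1c : P1.card = P0.card := by
    rw [hP1, Finset.card_image_of_injOn]
    intro α hα β hβ h
    have h1 := inv_injective h
    exact sub_left_injective h1
  have hP1n : (0 : k) ∉ P1 := by
    rw [hP1, Finset.mem_image]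
    rintro ⟨α, hα, h⟩
    exact hP0c α hα (inv_eq_zero.1 h)
  set P : Finset k := P1 ∪ (if R.natDegree < N then {0} else ∅) with hP
  have hPc : (P.card : ℝ) = pts2 K r R N := by
    unfold pts2
    rw [hP, Finset.card_union_of_disjoint, hP1c]
    · congr 2
      split_ifs <;> simp
    · split_ifs
      · rw [Finset.disjoint_singleton_right]; exact hP1n
      · exact Finset.disjoint_empty_right _
  have hPm : ∀ τ ∈ P, (∃ α ∈ P0, τ = (α - c')⁻¹) ∨ (R.natDegree < N ∧ τ = 0) := by
    intro τ hτ
    rw [hP, Finset.mem_union] at hτ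
    rcases hτ with hτ | hτ
    · rw [hP1, Finset.mem_image] at hτ
      obtain ⟨α, hα, h⟩ := hτ
      exact Or.inl ⟨α, hα, h.symm⟩
    · split_ifs at hτ with h
      · exact Or.inr ⟨h, Finset.mem_singleton.1 hτ⟩
      · simp at hτ
  have hPd : ∀ τ ∈ P, (minpoly K τ).natDegree ≤ 2 * r + 1 := by
    intro τ hτ
    rcases hPm τ hτ with ⟨α, hα, rfl⟩ | ⟨-, rfl⟩
    · refine (deg_le_of_mem (α := α) ?_).trans (hP0m α hα).2
      have h1 := IntermediateField.mem_adjoin_simple_self K α
      exact inv_mem (sub_mem h1 (algebraMap_mem _ c))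
    · rw [minpoly.zero, natDegree_X]; omega
  -- the value at the points
  have hval : ∀ {M : Type} [Field M] [Algebra k M] {t : M}, t ≠ 0 →
      MvPolynomial.aeval (Sum.elim (fun i => aeval t (co a A c' i)) (fun i => aeval t (co b B c' i)))
        F = (t ^ a) ^ q * (t ^ b) ^ s * aeval (t⁻¹ + algebraMap k M c') R := by
    intro M _ _ t ht
    have e1 : (fun i => aeval t (co a A c' i)) =
        fun i => t ^ a * aeval (t⁻¹ + algebraMap k M c') (A i) := by
      funext i; exact co_aeval hA c' ht i
    have e2 : (fun i => aeval t (co b B c' i)) =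
        fun i => t ^ b * aeval (t⁻¹ + algebraMap k M c') (B i) := by
      funext i; exact co_aeval hB c' ht i
    rw [e1, e2, ev_smul hF, hRdef, aeval_aeval]
  have hdvd : ∀ τ ∈ P, (X - C τ) ∣ MvPolynomial.aeval (Sum.elim (co a A c') (co b B c')) F := by
    intro τ hτ
    rcases hPm τ hτ with ⟨α, hα, h⟩ | ⟨hdeg, rfl⟩
    · have hτ0 : τ ≠ 0 := by rw [h]; exact inv_ne_zero (hP0c α hα)
      rw [dvd_iff_isRoot, IsRoot.def, ← coe_aeval_eq_eval, aeval_aeval, hval hτ0]
      have h1 : τ⁻¹ + algebraMap k k c' = α := by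
        rw [h, inv_inv]
        show α - c' + c' = α
        ring
      rw [h1, coe_aeval_eq_eval, (hP0m α hα).1, mul_zero]
    · rw [C_0, sub_zero]
      have h1 := dvd_refl_top (hA.shift c').degree_le (hB.shift c').degree_le hF (by
        rw [aeval_shift, natDegree_shift]; exact hdeg)
      exact h1
  have hnd : ∀ {a : ℕ} {A : Fin 2 → k[X]}, IsMap a A → ∀ τ ∈ P,
      ∃ i, ¬ (X - C τ) ∣ co a A c' i := by
    intro a A hA τ hτ
    by_cases hτ0 : τ = 0
    · obtain ⟨i, hi⟩ := (hA.shift c').coeff_ne
      refine ⟨i, fun h => hi ?_⟩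
      rw [hτ0, C_0, sub_zero, X_dvd_iff] at h
      unfold co at h
      rw [refl_coeff_zero] at h
      exact h
    · obtain ⟨i, hi⟩ := Function.ne_iff.1 (hA.eval_ne (τ⁻¹ + algebraMap k k c'))
      refine ⟨i, fun h => hi ?_⟩
      rw [dvd_iff_isRoot, IsRoot.def, ← coe_aeval_eq_eval, co_aeval hA c' hτ0] at h
      rcases mul_eq_zero.1 h with h1 | h1
      · exact absurd h1 (pow_ne_zero _ hτ0)
      · exact h1
  have h1 : ∀ τ : P, ∃ d : ℕ, d ≠ 0 ∧ ∀ (M : Type) [Field M] [NumberField M]
      [Algebra k M] (x : M) (w : HeightOneSpectrum (𝓞 M)), (d : 𝓞 M) ∉ w.asIdeal →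
      w.valuation M x ≤ 1 → w.valuation M (aeval x (X - C τ.1)) < 1 →
      MvPolynomial.aeval (Sum.elim (fun i => aeval x (co a A c' i))
        (fun i => aeval x (co b B c' i))) F ≠ 0 →
      lN w ≤ lam F q s w (fun i => aeval x (co a A c' i)) (fun i => aeval x (co b B c' i)) :=
    fun τ => near_lam (irreducible_X_sub_C τ.1) (co a A c') (co b B c') q s hF0
      (hnd hA τ.1 τ.2) (hnd hB τ.1 τ.2) (hdvd τ.1 τ.2)
  choose d hd g using h1
  -- the exceptional set
  set e := P.equivFin.symm with he
  obtain ⟨C0, hC0⟩ := hE.ext k P.card (fun j => (e j : k))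
    (fun i j h => e.injective (Subtype.ext h)) (fun j => hPd _ (e j).2) c 1 1 0 (by simp)
    (S ∪ Finset.univ.image d) κ hκ
  -- the heights
  have hMob : IsMap 1 (![C c' * X + 1, X] : Fin 2 → k[X]) := by
    refine ⟨fun i => ?_, ⟨1, ?_⟩, ⟨![1, -C c'], ?_⟩⟩
    · fin_cases i
      · show (C c' * X + 1 : k[X]).natDegree ≤ 1
        refine (natDegree_add_le _ _).trans (max_le ((natDegree_C_mul_le c' X).trans natDegree_X_le) ?_)
        rw [natDegree_one]; exact Nat.zero_le 1
      · show (X : k[X]).natDegree ≤ 1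
        rw [natDegree_X]
    · show (X : k[X]).natDegree = 1
      exact natDegree_X
    · rw [Fin.sum_univ_two]
      show 1 * (C c' * X + 1) + (-C c') * X = 1
      ring
  obtain ⟨C1, hC10, hC1⟩ := ht_map hMob r
  obtain ⟨C2, hC20, hC2⟩ := Pool.Agent.N751.LS.ht_poly_root (K := k) (X - C c') (X_sub_C_ne_zero c')
  refine ⟨|C0| + |(P.card : ℝ) - κ| * C1 + P.card * ((finrank ℚ k * r : ℕ) * C2), ?_⟩
  intro M _ _ _ _ _ x hadj hx hxE hRx
  have hfdM : FiniteDimensional K M := Module.Finite.of_restrictScalars_finite ℚ K M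
  have hfdkM : FiniteDimensional k M := Module.Finite.of_restrictScalars_finite ℚ k M
  have hRx' := hRx
  rw [hRdef, aeval_aeval] at hRx'
  have hfr : finrank k M ≤ r := by rw [← hx]; exact finrank_le hadj
  have hh0 : 0 ≤ logHeight₁ x := zero_le_logHeight₁ x
  rw [← hPc]
  by_cases hxc : x = algebraMap k M c'
  · have h3 := cnt_ge S hF (hA.eval_ne x) (hB.eval_ne x) hRx' ∅ (by simp)
    rw [Finset.sum_empty] at h3
    have h4 := hC2 M x (by rw [map_sub, aeval_X, aeval_C, hxc, sub_self])
    have h5 : finrank ℚ k * finrank k M = finrank ℚ M := finrank_mul_finrank ℚ k M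
    have h6 : (finrank ℚ M : ℝ) ≤ (finrank ℚ k * r : ℕ) := by
      rw [← h5]
      exact_mod_cast Nat.mul_le_mul_left _ hfr
    have h7 : logHeight₁ x ≤ (finrank ℚ k * r : ℕ) * C2 :=
      h4.trans (mul_le_mul_of_nonneg_right h6 hC20)
    have h8 : ((P.card : ℝ) - κ) * logHeight₁ x ≤ P.card * ((finrank ℚ k * r : ℕ) * C2) := by
      refine le_trans (mul_le_mul_of_nonneg_right (by linarith :
        (P.card : ℝ) - κ ≤ P.card) hh0) ?_
      exact mul_le_mul_of_nonneg_left h7 (Nat.cast_nonneg _)
    have h9 : 0 ≤ |C0| + |(P.card : ℝ) - κ| * C1 :=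
      add_nonneg (abs_nonneg _) (mul_nonneg (abs_nonneg _) hC10)
    linarith
  · -- the parameter `t`
    have hxc' : x - algebraMap k M c' ≠ 0 := sub_ne_zero.2 hxc
    set t : M := (x - algebraMap k M c')⁻¹ with ht
    have ht0 : t ≠ 0 := inv_ne_zero hxc'
    have hxt : t⁻¹ + algebraMap k M c' = x := by
      rw [ht, inv_inv]; ring
    have hcc : algebraMap K M c = algebraMap k M c' := by
      rw [hc']; exact IsScalarTower.algebraMap_apply K k M c
    have hrel : x * t = algebraMap k M c' * t + 1 := by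
      have h2 : x = t⁻¹ + algebraMap k M c' := hxt.symm
      rw [h2, add_mul, inv_mul_cancel₀ ht0]
      ring
    have htop : IntermediateField.adjoin k {t} = ⊤ := by
      rw [eq_top_iff, ← hadj, IntermediateField.adjoin_le_iff, Set.singleton_subset_iff]
      have h2 := IntermediateField.mem_adjoin_simple_self k t
      rw [← hxt]
      exact add_mem (inv_mem h2) (algebraMap_mem _ c')
    have htj : ∀ j, t ≠ algebraMap k M (e j : k) := by
      intro j h
      rcases hPm _ (e j).2 with ⟨α, hα, h2⟩ | ⟨-, h2⟩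
      · apply hRx
        have h3 : x = algebraMap k M α := by
          rw [← hxt, h, h2, ← map_inv₀, inv_inv, ← map_add]
          congr 1
          ring
        rw [h3, aeval_algebraMap_apply, coe_aeval_eq_eval, (hP0m α hα).1, map_zero]
      · rw [h2, map_zero] at h
        exact ht0 h
    have hfin : {w : HeightOneSpectrum (𝓞 M) |
        (∀ p ∈ S ∪ Finset.univ.image d, p ≠ 0 → (p : 𝓞 M) ∉ w.asIdeal) ∧ w.valuation M t ≤ 1 ∧
        ∃ j, w.valuation M (t - algebraMap k M (e j : k)) < 1}.Finite := by
      have h2 : (⋃ j, {w : HeightOneSpectrum (𝓞 M) |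
          w.valuation M (t - algebraMap k M (e j : k)) < 1}).Finite := by
        refine Set.finite_iUnion fun j => ?_
        have h3 : t - algebraMap k M (e j : k) ≠ 0 := sub_ne_zero.2 (htj j)
        refine (HeightOneSpectrum.Support.finite (𝓞 M)
          (t - algebraMap k M (e j : k))⁻¹).subset fun w hw => ?_
        show 1 < w.valuation M (t - algebraMap k M (e j : k))⁻¹
        have h4 : w.valuation M (t - algebraMap k M (e j : k)) < 1 := hw
        have h5 : 0 < w.valuation M (t - algebraMap k M (e j : k)) := by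
          rw [zero_lt_iff]
          exact (Valuation.ne_zero_iff _).2 h3
        rw [map_inv₀]
        exact (one_lt_inv₀ h5).2 h4
      refine h2.subset fun w hw => ?_
      obtain ⟨-, -, j, hj⟩ := hw
      exact Set.mem_iUnion.2 ⟨j, hj⟩
    have hrel2 : x * (algebraMap K M 1 * t + algebraMap K M 0) =
        algebraMap K M c * t + algebraMap K M 1 := by
      rw [map_one, map_zero, one_mul, add_zero, hcc]
      exact hrel
    have ht02 : algebraMap K M 1 * t + algebraMap K M 0 ≠ 0 := by
      rw [map_one, map_zero, one_mul, add_zero]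
      exact ht0
    have h3 := hC0 M t x htop hrel2 ht02 hx hxE htj
      hfin.toFinset (fun w h4 h5 h6 => by
        rw [Set.Finite.mem_toFinset]
        exact ⟨h4, h5, h6⟩)
    have h4 := cnt_ge S hF (hA.eval_ne x) (hB.eval_ne x) hRx' hfin.toFinset (by
      intro w hw
      rw [Set.Finite.mem_toFinset] at hw
      obtain ⟨h5, h6, j, h7⟩ := hw
      refine ⟨fun p hp => h5 p (by simp [hp]) (hS p hp), ?_⟩
      have h8 := g (e j) M t w (h5 _ (by simp) (hd _)) h6 (by
        rw [map_sub, aeval_X, aeval_C]; exact h7) (by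
        rw [hval ht0, hxt]
        exact mul_ne_zero (mul_ne_zero (pow_ne_zero _ (pow_ne_zero _ ht0))
          (pow_ne_zero _ (pow_ne_zero _ ht0))) hRx)
      have e1 : (fun i => aeval t (co a A c' i)) = fun i => t ^ a * aeval x (A i) := by
        funext i; rw [co_aeval hA c' ht0 i, hxt]
      have e2 : (fun i => aeval t (co b B c' i)) = fun i => t ^ b * aeval x (B i) := by
        funext i; rw [co_aeval hB c' ht0 i, hxt]
      rw [e1, e2, lam_smul hF w (pow_ne_zero _ ht0) (pow_ne_zero _ ht0)] at h8
      exact h8)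
    have h5 := hC1 M t hfr
    have h6 : logHeight (fun i => aeval t ((![C c' * X + 1, X] : Fin 2 → k[X]) i)) =
        logHeight₁ x := by
      rw [pair_eq (fun i => aeval t ((![C c' * X + 1, X] : Fin 2 → k[X]) i)),
        ← logHeight₁_div_eq_logHeight]
      congr 1
      show aeval t (C c' * X + 1 : k[X]) / aeval t (X : k[X]) = x
      rw [map_add, map_mul, aeval_C, aeval_X, map_one, ← hrel, mul_div_cancel_right₀ _ ht0]
    rw [h6, Nat.cast_one, one_mul, abs_le] at h5
    have h7 : ((P.card : ℝ) - κ) * logHeight₁ x ≤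
        ((P.card : ℝ) - κ) * logHeight₁ t + |(P.card : ℝ) - κ| * C1 := by
      have h8 : |logHeight₁ x - logHeight₁ t| ≤ C1 := abs_le.2 h5
      have h9 : ((P.card : ℝ) - κ) * (logHeight₁ x - logHeight₁ t) ≤
          |(P.card : ℝ) - κ| * C1 := by
        calc _ ≤ |((P.card : ℝ) - κ) * (logHeight₁ x - logHeight₁ t)| := le_abs_self _
          _ = |(P.card : ℝ) - κ| * |logHeight₁ x - logHeight₁ t| := abs_mul _ _
          _ ≤ _ := mul_le_mul_of_nonneg_left h8 (abs_nonneg _)
      linarith
    have h8 := le_abs_self C0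
    have h9 : 0 ≤ (P.card : ℝ) * ((finrank ℚ k * r : ℕ) * C2) :=
      mul_nonneg (Nat.cast_nonneg _) (mul_nonneg (Nat.cast_nonneg _) hC20)
    linarith

end Pool.Agent.J6H73.P1
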