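import Mathlib
import Pool.Agent.J6H73.SB.LS
import Pool.Agent.N415.DR.VK

/-!
# Local heights of divisors of `ℙ¹ × ℙ¹` over extensions, and the truncated counting function
-/

set_option autoImplicit false
set_option linter.unusedSectionVars false

namespace Pool.Agent.J6H73.P1

open NumberField IsDedekindDomain Module Polynomial Height Pool.Agent.N753.DR

/-- the weights of the variables -/
abbrev wts : Fin 2 ⊕ Fin 2 → ℕ × ℕ :=
  Sum.elim (fun _ : Fin 2 => ((1, 0) : ℕ × ℕ)) (fun _ : Fin 2 => ((0, 1) : ℕ × ℕ))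

section Alg

variable {k R : Type} [Field k] [CommRing R] [Algebra k R]

theorem bihom_deg {F : MvPolynomial (Fin 2 ⊕ Fin 2) k} {q s : ℕ}
    (h : F.IsWeightedHomogeneous wts (q, s)) {d : (Fin 2 ⊕ Fin 2) →₀ ℕ} (hd : F.coeff d ≠ 0) :
    d (Sum.inl 0) + d (Sum.inl 1) = q ∧ d (Sum.inr 0) + d (Sum.inr 1) = s := by
  have h1 := h hd
  rw [Finsupp.weight_apply, Finsupp.sum_fintype _ _ (by simp),
    Fintype.sum_sum_type, Fin.sum_univ_two, Fin.sum_univ_two] at h1
  simpa using h1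

theorem ev_eq (F : MvPolynomial (Fin 2 ⊕ Fin 2) k) (y z : Fin 2 → R) :
    MvPolynomial.aeval (Sum.elim y z) F = ∑ d ∈ F.support, algebraMap k R (F.coeff d) *
      ((y 0 ^ d (Sum.inl 0) * y 1 ^ d (Sum.inl 1)) *
        (z 0 ^ d (Sum.inr 0) * z 1 ^ d (Sum.inr 1))) := by
  rw [MvPolynomial.aeval_def, MvPolynomial.eval₂_eq']
  refine Finset.sum_congr rfl fun d _ => ?_
  rw [Fintype.prod_sum_type, Fin.prod_univ_two, Fin.prod_univ_two]
  rfl

theorem ev_smul {F : MvPolynomial (Fin 2 ⊕ Fin 2) k} {q s : ℕ}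
    (h : F.IsWeightedHomogeneous wts (q, s)) (c e : R) (y z : Fin 2 → R) :
    MvPolynomial.aeval (Sum.elim (fun i => c * y i) (fun i => e * z i)) F =
      c ^ q * e ^ s * MvPolynomial.aeval (Sum.elim y z) F := by
  rw [ev_eq, ev_eq, Finset.mul_sum]
  refine Finset.sum_congr rfl fun d hd => ?_
  obtain ⟨h1, h2⟩ := bihom_deg h (MvPolynomial.mem_support_iff.1 hd)
  rw [← h1, ← h2, pow_add, pow_add]
  ring

end Alg

section Loc

variable {k M : Type} [Field k] [Field M] [NumberField M] [Algebra k M]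

/-- the local height at the prime `v` of `M` of the divisor `F = 0` of bidegree `(q, s)` at `(y, z)` -/
noncomputable def lam (F : MvPolynomial (Fin 2 ⊕ Fin 2) k) (q s : ℕ)
    (v : HeightOneSpectrum (𝓞 M)) (y z : Fin 2 → M) : ℝ :=
  Real.log ((⨆ d : F.support, FinitePlace.mk v (algebraMap k M (F.coeff d))) *
    ((⨆ i, FinitePlace.mk v (y i)) ^ q * (⨆ i, FinitePlace.mk v (z i)) ^ s) /
    FinitePlace.mk v (MvPolynomial.aeval (Sum.elim y z) F))

theorem le_sup2 (v : HeightOneSpectrum (𝓞 M)) (y : Fin 2 → M) (i : Fin 2) :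
    FinitePlace.mk v (y i) ≤ ⨆ i, FinitePlace.mk v (y i) :=
  le_ciSup (f := fun i => FinitePlace.mk v (y i)) (Set.finite_range _).bddAbove i

theorem sup2_nonneg (v : HeightOneSpectrum (𝓞 M)) (y : Fin 2 → M) :
    0 ≤ ⨆ i, FinitePlace.mk v (y i) :=
  Real.iSup_nonneg fun i => apply_nonneg _ _

theorem sup2_pos (v : HeightOneSpectrum (𝓞 M)) {y : Fin 2 → M} (hy : y ≠ 0) :
    0 < ⨆ i, FinitePlace.mk v (y i) := by
  obtain ⟨i, hi⟩ := Function.ne_iff.1 hy
  exact lt_of_lt_of_le (FinitePlace.pos_iff.2 hi) (le_sup2 v y i)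

theorem supc_nonneg (v : HeightOneSpectrum (𝓞 M)) (F : MvPolynomial (Fin 2 ⊕ Fin 2) k) :
    0 ≤ ⨆ d : F.support, FinitePlace.mk v (algebraMap k M (F.coeff d)) :=
  Real.iSup_nonneg fun i => apply_nonneg _ _

theorem le_fin {ι : Type} [Finite ι] (g : ι → ℝ) (i : ι) : g i ≤ ⨆ i, g i :=
  le_ciSup (Set.finite_range g).bddAbove i

theorem le_supc (v : HeightOneSpectrum (𝓞 M)) (F : MvPolynomial (Fin 2 ⊕ Fin 2) k)
    (d : (Fin 2 ⊕ Fin 2) →₀ ℕ) (hd : d ∈ F.support) :
    FinitePlace.mk v (algebraMap k M (F.coeff d)) ≤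
      ⨆ d : F.support, FinitePlace.mk v (algebraMap k M (F.coeff d)) := by
  have := le_fin (fun d : F.support => FinitePlace.mk v (algebraMap k M (F.coeff d))) ⟨d, hd⟩
  exact this

theorem supc_pos (v : HeightOneSpectrum (𝓞 M)) {F : MvPolynomial (Fin 2 ⊕ Fin 2) k}
    (hF : F ≠ 0) : 0 < ⨆ d : F.support, FinitePlace.mk v (algebraMap k M (F.coeff d)) := by
  obtain ⟨d, hd⟩ := MvPolynomial.support_nonempty.2 hF
  refine lt_of_lt_of_le (FinitePlace.pos_iff.2 ?_) (le_supc v F d hd)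
  exact (_root_.map_ne_zero _).2 (MvPolynomial.mem_support_iff.1 hd)

theorem mk_sum_le (v : HeightOneSpectrum (𝓞 M)) {ι : Type} (S : Finset ι) (f : ι → M) (B : ℝ)
    (hB : 0 ≤ B) (h : ∀ i ∈ S, FinitePlace.mk v (f i) ≤ B) :
    FinitePlace.mk v (∑ i ∈ S, f i) ≤ B := by
  classical
  induction S using Finset.induction_on with
  | empty => rw [Finset.sum_empty, map_zero]; exact hB
  | insert a S ha ih =>
    rw [Finset.sum_insert ha]
    refine (FinitePlace.add_le _ _ _).trans (max_le (h a (Finset.mem_insert_self a S)) ?_)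
    exact ih fun i hi => h i (Finset.mem_insert_of_mem hi)

theorem ev_le {F : MvPolynomial (Fin 2 ⊕ Fin 2) k} {q s : ℕ}
    (h : F.IsWeightedHomogeneous wts (q, s)) (v : HeightOneSpectrum (𝓞 M)) (y z : Fin 2 → M) :
    FinitePlace.mk v (MvPolynomial.aeval (Sum.elim y z) F) ≤
      (⨆ d : F.support, FinitePlace.mk v (algebraMap k M (F.coeff d))) *
        ((⨆ i, FinitePlace.mk v (y i)) ^ q * (⨆ i, FinitePlace.mk v (z i)) ^ s) := by
  have hy0 := sup2_nonneg v y
  have hz0 := sup2_nonneg v z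
  have hc0 := supc_nonneg v F
  rw [ev_eq]
  refine mk_sum_le v _ _ _ (by positivity) fun d hd => ?_
  obtain ⟨h1, h2⟩ := bihom_deg h (MvPolynomial.mem_support_iff.1 hd)
  rw [map_mul, map_mul, map_mul, map_mul, map_pow, map_pow, map_pow, map_pow]
  have a1 : FinitePlace.mk v (y 0) ^ d (Sum.inl 0) * FinitePlace.mk v (y 1) ^ d (Sum.inl 1) ≤
      (⨆ i, FinitePlace.mk v (y i)) ^ q := by
    rw [← h1, pow_add]
    exact mul_le_mul (pow_le_pow_left₀ (apply_nonneg _ _) (le_sup2 v y 0) _)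
      (pow_le_pow_left₀ (apply_nonneg _ _) (le_sup2 v y 1) _)
      (pow_nonneg (apply_nonneg _ _) _) (pow_nonneg hy0 _)
  have a2 : FinitePlace.mk v (z 0) ^ d (Sum.inr 0) * FinitePlace.mk v (z 1) ^ d (Sum.inr 1) ≤
      (⨆ i, FinitePlace.mk v (z i)) ^ s := by
    rw [← h2, pow_add]
    exact mul_le_mul (pow_le_pow_left₀ (apply_nonneg _ _) (le_sup2 v z 0) _)
      (pow_le_pow_left₀ (apply_nonneg _ _) (le_sup2 v z 1) _)
      (pow_nonneg (apply_nonneg _ _) _) (pow_nonneg hz0 _)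
  refine mul_le_mul (le_supc v F d hd) (mul_le_mul a1 a2 ?_ (pow_nonneg hy0 _)) ?_ hc0
  · exact mul_nonneg (pow_nonneg (apply_nonneg _ _) _) (pow_nonneg (apply_nonneg _ _) _)
  · exact mul_nonneg (mul_nonneg (pow_nonneg (apply_nonneg _ _) _)
      (pow_nonneg (apply_nonneg _ _) _)) (mul_nonneg (pow_nonneg (apply_nonneg _ _) _)
      (pow_nonneg (apply_nonneg _ _) _))

theorem lam_nonneg {F : MvPolynomial (Fin 2 ⊕ Fin 2) k} {q s : ℕ}
    (h : F.IsWeightedHomogeneous wts (q, s)) (v : HeightOneSpectrum (𝓞 M)) (y z : Fin 2 → M)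
    (h0 : MvPolynomial.aeval (Sum.elim y z) F ≠ 0) : 0 ≤ lam F q s v y z := by
  unfold lam
  refine Real.log_nonneg ?_
  rw [one_le_div (FinitePlace.pos_iff.2 h0)]
  exact ev_le h v y z

theorem lam_smul {F : MvPolynomial (Fin 2 ⊕ Fin 2) k} {q s : ℕ}
    (h : F.IsWeightedHomogeneous wts (q, s)) (v : HeightOneSpectrum (𝓞 M)) {c e : M}
    (hc : c ≠ 0) (he : e ≠ 0) (y z : Fin 2 → M) :
    lam F q s v (fun i => c * y i) (fun i => e * z i) = lam F q s v y z := by
  have e1 : ∀ (c : M) (y : Fin 2 → M), (⨆ i, FinitePlace.mk v (c * y i)) =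
      FinitePlace.mk v c * ⨆ i, FinitePlace.mk v (y i) := by
    intro c y
    rw [Real.mul_iSup_of_nonneg (apply_nonneg _ _)]
    simp only [map_mul]
  unfold lam
  rw [e1, e1, ev_smul h, map_mul, map_mul, map_pow, map_pow, mul_pow, mul_pow]
  congr 1
  have hc' : FinitePlace.mk v c ≠ 0 := (FinitePlace.pos_iff.2 hc).ne'
  have he' : FinitePlace.mk v e ≠ 0 := (FinitePlace.pos_iff.2 he).ne'
  set P := ⨆ d : F.support, FinitePlace.mk v (algebraMap k M (F.coeff d))
  set Y := ⨆ i, FinitePlace.mk v (y i)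
  set Z := ⨆ i, FinitePlace.mk v (z i)
  set V := FinitePlace.mk v (MvPolynomial.aeval (Sum.elim y z) F)
  have e2 : P * (FinitePlace.mk v c ^ q * Y ^ q * (FinitePlace.mk v e ^ s * Z ^ s)) =
      (FinitePlace.mk v c ^ q * FinitePlace.mk v e ^ s) * (P * (Y ^ q * Z ^ s)) := by ring
  rw [e2]
  exact mul_div_mul_left _ _ (mul_ne_zero (pow_ne_zero _ hc') (pow_ne_zero _ he'))

theorem mk_one_finite {x : M} (hx : x ≠ 0) :
    {v : HeightOneSpectrum (𝓞 M) | FinitePlace.mk v x ≠ 1}.Finite := by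
  have h1 := FinitePlace.hasFiniteMulSupport hx
  refine Set.Finite.of_finite_image (f := fun v => FinitePlace.mk v) (h1.subset ?_) ?_
  · rintro _ ⟨v, hv, rfl⟩
    exact hv
  · intro v _ w _ h
    exact FinitePlace.mk_eq_iff.1 h

theorem lam_finite (F : MvPolynomial (Fin 2 ⊕ Fin 2) k) (q s : ℕ) {y z : Fin 2 → M}
    (hy : y ≠ 0) (hz : z ≠ 0) (h0 : MvPolynomial.aeval (Sum.elim y z) F ≠ 0) :
    {v : HeightOneSpectrum (𝓞 M) | lam F q s v y z ≠ 0}.Finite := by
  classical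
  have hF : F ≠ 0 := by rintro rfl; simp at h0
  have f1 : ∀ y : Fin 2 → M, (⋃ i, {v : HeightOneSpectrum (𝓞 M) | y i ≠ 0 ∧
      FinitePlace.mk v (y i) ≠ 1}).Finite := by
    intro y
    refine Set.finite_iUnion fun i => ?_
    by_cases h : y i = 0
    · simp [h]
    · exact (mk_one_finite h).subset fun v hv => hv.2
  have f2 : (⋃ d : F.support, {v : HeightOneSpectrum (𝓞 M) |
      FinitePlace.mk v (algebraMap k M (F.coeff d)) ≠ 1}).Finite := by
    refine Set.finite_iUnion fun d => ?_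
    exact mk_one_finite ((_root_.map_ne_zero _).2 (MvPolynomial.mem_support_iff.1 d.2))
  have key : ∀ (v : HeightOneSpectrum (𝓞 M)) (y : Fin 2 → M), y ≠ 0 →
      (∀ i, y i ≠ 0 → FinitePlace.mk v (y i) = 1) → (⨆ i, FinitePlace.mk v (y i)) = 1 := by
    intro v y hy h
    apply le_antisymm
    · refine ciSup_le fun i => ?_
      by_cases hi : y i = 0
      · rw [hi, map_zero]; exact zero_le_one
      · exact (h i hi).le
    · obtain ⟨i, hi⟩ := Function.ne_iff.1 hy
      rw [← h i hi]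
      exact le_sup2 v y i
  refine (((f1 y).union (f1 z)).union (f2.union (mk_one_finite h0))).subset ?_
  intro v hv
  by_contra hcon
  simp only [Set.mem_union, Set.mem_iUnion, Set.mem_setOf_eq, not_or, not_exists, not_and,
    not_not] at hcon
  obtain ⟨⟨g1, g2⟩, g3, g4⟩ := hcon
  apply hv
  unfold lam
  rw [key v y hy g1, key v z hz g2, g4]
  have e3 : (⨆ d : F.support, FinitePlace.mk v (algebraMap k M (F.coeff d))) = 1 := by
    obtain ⟨d, hd⟩ := MvPolynomial.support_nonempty.2 hF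
    haveI : Nonempty F.support := ⟨⟨d, hd⟩⟩
    simp only [g3, ciSup_const]
  rw [e3]
  simp

open Classical in
/-- the truncated counting function, the primes above `S` being omitted -/
noncomputable def cnt (S : Finset ℕ) (F : MvPolynomial (Fin 2 ⊕ Fin 2) k) (q s : ℕ)
    (y z : Fin 2 → M) : ℝ :=
  ∑ᶠ (v : HeightOneSpectrum (𝓞 M)) (_ : ∀ p ∈ S, (p : 𝓞 M) ∉ v.asIdeal),
    min (Real.log (Ideal.absNorm v.asIdeal : ℝ)) (lam F q s v y z)

theorem cnt_ge (S : Finset ℕ) {F : MvPolynomial (Fin 2 ⊕ Fin 2) k} {q s : ℕ}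
    (h : F.IsWeightedHomogeneous wts (q, s)) {y z : Fin 2 → M} (hy : y ≠ 0) (hz : z ≠ 0)
    (h0 : MvPolynomial.aeval (Sum.elim y z) F ≠ 0) (W : Finset (HeightOneSpectrum (𝓞 M)))
    (hW : ∀ w ∈ W, (∀ p ∈ S, (p : 𝓞 M) ∉ w.asIdeal) ∧ lN w ≤ lam F q s w y z) :
    ∑ w ∈ W, lN w ≤ cnt S F q s y z := by
  classical
  set g : HeightOneSpectrum (𝓞 M) → ℝ := fun v =>
    if ∀ p ∈ S, (p : 𝓞 M) ∉ v.asIdeal then
      min (Real.log (Ideal.absNorm v.asIdeal : ℝ)) (lam F q s v y z) else 0 with hg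
  have hcnt : cnt S F q s y z = ∑ᶠ v, g v := by
    unfold cnt
    refine finsum_congr fun v => ?_
    rw [hg]
    by_cases hv : ∀ p ∈ S, (p : 𝓞 M) ∉ v.asIdeal
    · simp only [hv, if_true]
      rw [finsum_eq_if, if_pos hv]
    · rw [finsum_eq_if, if_neg hv]
      simp only [hv, if_false]
  have hlN : ∀ w : HeightOneSpectrum (𝓞 M), 0 ≤ Real.log (Ideal.absNorm w.asIdeal : ℝ) :=
    fun w => Real.log_natCast_nonneg _
  have hnn : ∀ v, 0 ≤ g v := by
    intro v
    rw [hg]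
    dsimp only
    split_ifs
    · exact le_min (hlN v) (lam_nonneg h v y z h0)
    · exact le_rfl
  have hsupp : (Function.support g).Finite := by
    refine (lam_finite F q s hy hz h0).subset fun v hv => ?_
    intro hl
    apply hv
    rw [hg]
    dsimp only
    rw [hl, min_eq_right (hlN v)]
    simp
  rw [hcnt, finsum_eq_sum_of_support_subset (s := hsupp.toFinset ∪ W) g (by
    intro v hv
    simp only [Finset.coe_union, Set.Finite.coe_toFinset, Set.mem_union]
    exact Or.inl hv)]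
  refine le_trans ?_ (Finset.sum_le_sum_of_subset_of_nonneg Finset.subset_union_right
    fun v _ _ => hnn v)
  refine Finset.sum_le_sum fun w hw => ?_
  obtain ⟨h1, h2⟩ := hW w hw
  rw [hg]
  dsimp only
  rw [if_pos h1]
  exact le_min le_rfl h2

/-- a prime where everything is a unit but the value of `F` -/
theorem lN_le_lam {F : MvPolynomial (Fin 2 ⊕ Fin 2) k} (q s : ℕ) {y z : Fin 2 → M}
    (w : HeightOneSpectrum (𝓞 M)) (h0 : MvPolynomial.aeval (Sum.elim y z) F ≠ 0)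
    (hv : w.valuation M (MvPolynomial.aeval (Sum.elim y z) F) < 1)
    (hc : (⨆ d : F.support, FinitePlace.mk w (algebraMap k M (F.coeff d))) = 1)
    (hy : (⨆ i, FinitePlace.mk w (y i)) = 1) (hz : (⨆ i, FinitePlace.mk w (z i)) = 1) :
    lN w ≤ lam F q s w y z := by
  unfold lam
  rw [hc, hy, hz, one_pow, one_pow, one_mul, one_mul, one_div, Real.log_inv]
  have h1 := Pool.Agent.N415.DRVK.abv_le w hv h0
  have h2 : 0 < (FinitePlace.mk w (MvPolynomial.aeval (Sum.elim y z) F) : ℝ) :=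
    FinitePlace.pos_iff.2 h0
  have h3 := Real.log_le_log h2 h1
  rw [Real.log_inv] at h3
  have h4 : lN w = Real.log ((Ideal.absNorm w.asIdeal : ℕ) : ℝ) := rfl
  linarith

theorem mk_eq_one {w : HeightOneSpectrum (𝓞 M)} {x : M} (h : w.valuation M x = 1) :
    FinitePlace.mk w x = 1 := by
  have h1 : FinitePlace.mk w x ≤ 1 := by
    rw [FinitePlace.mk_apply, FinitePlace.norm_embedding', ← NNReal.coe_one, NNReal.coe_le_coe]
    exact (WithZeroMulInt.toNNReal_le_one_iff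
      (HeightOneSpectrum.one_lt_absNorm_nnreal w)).2 h.le
  have h2 : ¬ FinitePlace.mk w x < 1 := by
    rw [FinitePlace.mk_apply, FinitePlace.norm_embedding', ← NNReal.coe_one, NNReal.coe_lt_coe,
      WithZeroMulInt.toNNReal_lt_one_iff (HeightOneSpectrum.one_lt_absNorm_nnreal w)]
    rw [h]
    exact lt_irrefl _
  exact le_antisymm h1 (not_lt.1 h2)

theorem mk_le_one' {w : HeightOneSpectrum (𝓞 M)} {x : M} (h : w.valuation M x ≤ 1) :
    FinitePlace.mk w x ≤ 1 := by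
  rw [FinitePlace.mk_apply, FinitePlace.norm_embedding', ← NNReal.coe_one, NNReal.coe_le_coe]
  exact (WithZeroMulInt.toNNReal_le_one_iff
    (HeightOneSpectrum.one_lt_absNorm_nnreal w)).2 h

theorem sup2_eq_one {w : HeightOneSpectrum (𝓞 M)} {y : Fin 2 → M}
    (h1 : ∀ i, w.valuation M (y i) ≤ 1) (h2 : ∃ i, w.valuation M (y i) = 1) :
    (⨆ i, FinitePlace.mk w (y i)) = 1 := by
  obtain ⟨i, hi⟩ := h2
  refine le_antisymm (ciSup_le fun j => mk_le_one' (h1 j)) ?_
  rw [← mk_eq_one hi]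
  exact le_sup2 w y i

end Loc

end Pool.Agent.J6H73.P1
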