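import Pool.Agent.J6H73.P1.Up

/-!
# Rational curves on `ℙ¹ × ℙ¹`: the truncated inequality at almost all points of degree `r`
-/

set_option autoImplicit false
set_option linter.unusedSectionVars false

namespace Pool.Agent.J6H73.P1

open NumberField IsDedekindDomain Module Polynomial Height Pool.Agent.N753.DR
open Pool.Agent.J6H73.SB (pole_val' ExcSet mn)
open UniqueFactorizationMonoid (normalizedFactors)

/-- the properties of the exceptional set -/
structure ExcB (K : Type) [Field K] [NumberField K] (r : ℕ) (E : Set K[X]) : Prop where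
  count : ∀ U : ℝ, 0 ≤ U → {p | p ∈ E ∧ AtH r U p}.Finite ∧
    ({p | p ∈ E ∧ AtH r U p}.ncard : ℝ) ≤ 5 * Real.exp ((r + 1) * U - √U)
  zeros : ∀ (S : Finset ℕ) (F : K[X]), F.Monic → Irreducible F →
    ∀ κ : ℝ, 0 < κ → ∃ C : ℝ, ∀ (M : Type) [Field M] [NumberField M] [Algebra K M] (x : M),
      finrank K M = r → (minpoly K x).natDegree = r → minpoly K x ∉ E →
      ∀ W : Finset (HeightOneSpectrum (𝓞 M)), (∀ w, Near S F x w → w ∈ W) →
        ((mn r F : ℝ) - κ) * Height.logHeight₁ x ≤ ∑ w ∈ W, lN w + C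
  poles : ∀ (S : Finset ℕ) (κ : ℝ), 0 < κ → ∃ C : ℝ, ∀ (M : Type) [Field M] [NumberField M]
    [Algebra K M] (x : M), finrank K M = r → (minpoly K x).natDegree = r → minpoly K x ∉ E →
      x ≠ 0 → ∀ W : Finset (HeightOneSpectrum (𝓞 M)),
        (∀ w, (∀ p ∈ S, p ≠ 0 → (p : 𝓞 M) ∉ w.asIdeal) → 1 < w.valuation M x → w ∈ W) →
        (1 - κ) * Height.logHeight₁ x ≤ ∑ w ∈ W, lN w + C
  ext : ∀ (k : Type) [Field k] [NumberField k] [Algebra K k] (q : ℕ) (a : Fin q → k),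
    Function.Injective a → (∀ j, (minpoly K (a j)).natDegree ≤ 2 * r + 1) →
    ∀ (al be ga de : K), al * de - be * ga ≠ 0 → ∀ (S : Finset ℕ)
    (κ : ℝ), 0 < κ → ∃ C : ℝ, ∀ (M : Type) [Field M] [NumberField M] [Algebra K M] [Algebra k M]
      [IsScalarTower K k M] (t x : M), IntermediateField.adjoin k {t} = ⊤ →
      x * (algebraMap K M ga * t + algebraMap K M de) =
        algebraMap K M al * t + algebraMap K M be →
      algebraMap K M ga * t + algebraMap K M de ≠ 0 →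
      (minpoly K x).natDegree = r → minpoly K x ∉ E → (∀ j, t ≠ algebraMap k M (a j)) →
      ∀ W : Finset (HeightOneSpectrum (𝓞 M)),
        (∀ w, (∀ p ∈ S, p ≠ 0 → (p : 𝓞 M) ∉ w.asIdeal) → w.valuation M t ≤ 1 →
          (∃ j, w.valuation M (t - algebraMap k M (a j)) < 1) → w ∈ W) →
        (q - κ) * Height.logHeight₁ t ≤ ∑ w ∈ W, lN w + C

theorem exists_excB (K : Type) [Field K] [NumberField K] (r : ℕ) (hr : 1 ≤ r) :
    ∃ E : Set K[X], ExcB K r E := by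
  obtain ⟨E₁, h1⟩ := Pool.Agent.J6H73.SB.exists_exc K r hr
  obtain ⟨E₂, h3, h4⟩ := Pool.Agent.J6H73.SB.vkg_holds K r hr
  refine ⟨E₁ ∪ E₂, ?_, ?_, ?_, ?_⟩
  · intro U hU
    obtain ⟨f1, c1⟩ := h1.count U hU
    obtain ⟨f2, c2⟩ := h3 U hU
    have e : {p | p ∈ E₁ ∪ E₂ ∧ AtH r U p} = {p | p ∈ E₁ ∧ AtH r U p} ∪ {p | p ∈ E₂ ∧ AtH r U p} := by
      ext p
      simp only [Set.mem_union, Set.mem_ofPred_eq]
      tauto
    rw [e]
    refine ⟨f1.union f2, ?_⟩
    have h5 := Set.ncard_union_le {p | p ∈ E₁ ∧ AtH r U p} {p | p ∈ E₂ ∧ AtH r U p}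
    have h6 : (({p | p ∈ E₁ ∧ AtH r U p} ∪ {p | p ∈ E₂ ∧ AtH r U p}).ncard : ℝ) ≤
        ({p | p ∈ E₁ ∧ AtH r U p}.ncard : ℝ) + ({p | p ∈ E₂ ∧ AtH r U p}.ncard : ℝ) := by
      exact_mod_cast h5
    linarith
  · intro S F hF1 hF2 κ hκ
    obtain ⟨C, hC⟩ := h1.zeros S F hF1 hF2 κ hκ
    exact ⟨C, fun M _ _ _ x hM hx hxE => hC M x hM hx fun h => hxE (Or.inl h)⟩
  · intro S κ hκ
    obtain ⟨C, hC⟩ := h1.poles S κ hκ
    exact ⟨C, fun M _ _ _ x hM hx hxE => hC M x hM hx fun h => hxE (Or.inl h)⟩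
  · intro k _ _ _ q a ha hd al be ga de hdet S κ hκ
    obtain ⟨C, hC⟩ := h4 k q a ha hd al be ga de hdet S κ hκ
    exact ⟨C, fun M _ _ _ _ _ t x h5 h6 h7 h8 h9 => hC M t x h5 h6 h7 h8 fun h => h9 (Or.inr h)⟩

/-- the weight of a closed point of degree `δ` -/
def wt (r δ : ℕ) : ℕ := if δ ≤ 2 * r + 1 then δ else r + 1

theorem ExcB.zeros2 {K : Type} [Field K] [NumberField K] {r : ℕ} {E : Set K[X]}
    (hE : ExcB K r E) (S : Finset ℕ) (F : K[X]) (hF1 : F.Monic) (hF2 : Irreducible F)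
    (κ : ℝ) (hκ : 0 < κ) : ∃ C : ℝ, ∀ (M : Type) [Field M] [NumberField M] [Algebra K M] (x : M),
      finrank K M = r → (minpoly K x).natDegree = r → minpoly K x ∉ E →
      ∀ W : Finset (HeightOneSpectrum (𝓞 M)), (∀ w, Near S F x w → w ∈ W) →
        ((wt r F.natDegree : ℝ) - κ) * Height.logHeight₁ x ≤ ∑ w ∈ W, lN w + C := by
  unfold wt
  split_ifs with h
  · refine zeros_up ?_ S hF2 h κ hκ
    intro k _ _ _ q a ha had S κ hκ
    obtain ⟨C, hC⟩ := hE.ext k q a ha had 1 0 0 1 (by simp) S κ hκ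
    exact ⟨C, fun N _ _ _ _ _ x h1 h2 h3 h4 W hW =>
      hC N x x h1 (by simp) (by simp) h2 h3 h4 W hW⟩
  · have h1 := hE.zeros S F hF1 hF2 κ hκ
    have h2 : mn r F = r + 1 := by
      unfold mn
      exact min_eq_left (by omega)
    rwa [h2] at h1

open Classical in
/-- the number of the geometric points of the line over the divisor, a closed point of degree `δ`
being counted with the weight `δ` if `δ ≤ 2 r + 1` and `r + 1` otherwise -/
noncomputable def pts {K : Type} [Field K] (r : ℕ) (R : K[X]) (N : ℕ) : ℕ :=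
  ∑ Q ∈ (normalizedFactors R).toFinset, wt r Q.natDegree +
    if R.natDegree < N then 1 else 0

open Classical in
theorem factor_props {K : Type} [Field K] {R Q : K[X]} (hR : R ≠ 0)
    (hQ : Q ∈ normalizedFactors R) : Irreducible Q ∧ Q.Monic ∧ Q ∣ R :=
  (Polynomial.mem_normalizedFactors_iff hR).1 hQ

section Over

variable {K : Type} [Field K] [NumberField K] {r : ℕ} {E : Set K[X]}

theorem fin_part (hE : ExcB K r E) {a b q s : ℕ} {A B : Fin 2 → K[X]} (hA : IsMap a A)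
    (hB : IsMap b B) {F : MvPolynomial (Fin 2 ⊕ Fin 2) K}
    (hR : MvPolynomial.aeval (Sum.elim A B) F ≠ 0) (S : Finset ℕ) (hS : ∀ p ∈ S, p ≠ 0)
    (T : Finset K[X]) (hT : ∀ Q ∈ T, Irreducible Q ∧ Q.Monic ∧
      Q ∣ MvPolynomial.aeval (Sum.elim A B) F) (κ : ℝ) (hκ : 0 < κ) :
    ∃ C : ℝ, ∀ (M : Type) [Field M] [NumberField M] [Algebra K M] (x : M), finrank K M = r →
      (minpoly K x).natDegree = r → minpoly K x ∉ E →
      aeval x (MvPolynomial.aeval (Sum.elim A B) F) ≠ 0 →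
      ∃ W : Finset (HeightOneSpectrum (𝓞 M)),
        (∀ w ∈ W, (∀ p ∈ S, (p : 𝓞 M) ∉ w.asIdeal) ∧ w.valuation M x ≤ 1 ∧
          lN w ≤ lam F q s w (fun i => aeval x (A i)) (fun i => aeval x (B i))) ∧
        ((∑ Q ∈ T, wt r Q.natDegree : ℕ) - κ) * logHeight₁ x ≤ ∑ w ∈ W, lN w + C := by
  classical
  have hF0 : F ≠ 0 := by rintro rfl; simp at hR
  set R := MvPolynomial.aeval (Sum.elim A B) F with hRdef
  have h1 : ∀ Q : T, ∃ d : ℕ, d ≠ 0 ∧ ∀ (M : Type) [Field M] [NumberField M]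
      [Algebra K M] (x : M) (w : HeightOneSpectrum (𝓞 M)), (d : 𝓞 M) ∉ w.asIdeal →
      w.valuation M x ≤ 1 → w.valuation M (aeval x Q.1) < 1 →
      MvPolynomial.aeval (Sum.elim (fun i => aeval x (A i)) (fun i => aeval x (B i))) F ≠ 0 →
      lN w ≤ lam F q s w (fun i => aeval x (A i)) (fun i => aeval x (B i)) := fun Q =>
    near_lam (hT Q.1 Q.2).1 A B q s hF0 (hA.not_dvd (hT Q.1 Q.2).1) (hB.not_dvd (hT Q.1 Q.2).1)
      (hT Q.1 Q.2).2.2
  have h2 : ∀ Q : T, ∃ d : ℕ, d ≠ 0 ∧ ∀ (M : Type) [Field M] [NumberField M]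
      [Algebra K M] (x : M) (w : HeightOneSpectrum (𝓞 M)), (d : 𝓞 M) ∉ w.asIdeal →
      w.valuation M x ≤ 1 → w.valuation M (aeval x Q.1) < 1 → ∀ Q' : T,
        w.valuation M (aeval x Q'.1) ≤ 1 ∧
        (¬ Q.1 ∣ Q'.1 → w.valuation M (aeval x Q'.1) = 1) ∧
        (Q.1 ∣ Q'.1 → w.valuation M (aeval x Q'.1) < 1) := fun Q =>
    val_fin (hT Q.1 Q.2).1 (fun Q' : T => Q'.1)
  choose d1 hd1 g1 using h1
  choose d2 hd2 g2 using h2
  set κ' : ℝ := κ / (T.card + 1) with hκ'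
  have hc : (0 : ℝ) < T.card + 1 := by positivity
  have hκ'0 : 0 < κ' := by positivity
  have h3 : ∀ Q : T, ∃ C : ℝ, ∀ (M : Type) [Field M] [NumberField M] [Algebra K M] (x : M),
      finrank K M = r → (minpoly K x).natDegree = r → minpoly K x ∉ E →
      ∀ W : Finset (HeightOneSpectrum (𝓞 M)),
        (∀ w, Near (S ∪ {d1 Q, d2 Q}) Q.1 x w → w ∈ W) →
        ((wt r Q.1.natDegree : ℝ) - κ') * Height.logHeight₁ x ≤ ∑ w ∈ W, lN w + C := fun Q =>
    hE.zeros2 _ Q.1 (hT Q.1 Q.2).2.1 (hT Q.1 Q.2).1 κ' hκ'0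
  choose C hC using h3
  refine ⟨∑ Q, C Q, fun M _ _ _ x hM hx hxE hRx => ?_⟩
  have hQx : ∀ Q : T, aeval x Q.1 ≠ 0 := by
    intro Q h
    apply hRx
    obtain ⟨P, hP⟩ := (hT Q.1 Q.2).2.2
    rw [hP, map_mul, h, zero_mul]
  have hfin : ∀ Q : T, {w : HeightOneSpectrum (𝓞 M) | Near (S ∪ {d1 Q, d2 Q}) Q.1 x w}.Finite := by
    intro Q
    refine (HeightOneSpectrum.Support.finite (𝓞 M) (aeval x Q.1)⁻¹).subset fun w hw => ?_
    show 1 < w.valuation M (aeval x Q.1)⁻¹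
    have h4 : w.valuation M (aeval x Q.1) < 1 := hw.2.2
    have h5 : 0 < w.valuation M (aeval x Q.1) := by
      rw [zero_lt_iff]
      exact (Valuation.ne_zero_iff _).2 (hQx Q)
    rw [map_inv₀]
    exact (one_lt_inv₀ h5).2 h4
  set V : T → Finset (HeightOneSpectrum (𝓞 M)) := fun Q => (hfin Q).toFinset with hV
  have hVm : ∀ Q w, w ∈ V Q ↔ Near (S ∪ {d1 Q, d2 Q}) Q.1 x w := by
    intro Q w
    rw [hV, Set.Finite.mem_toFinset]
    rfl
  have hd1m : ∀ Q w, w ∈ V Q → (d1 Q : 𝓞 M) ∉ w.asIdeal := fun Q w hw =>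
    ((hVm Q w).1 hw).1 _ (by simp) (hd1 Q)
  have hd2m : ∀ Q w, w ∈ V Q → (d2 Q : 𝓞 M) ∉ w.asIdeal := fun Q w hw =>
    ((hVm Q w).1 hw).1 _ (by simp) (hd2 Q)
  have hdisj : ∀ Q Q' : T, Q ≠ Q' → Disjoint (V Q) (V Q') := by
    intro Q Q' hne
    rw [Finset.disjoint_left]
    intro w hw hw'
    have h4 := (hVm Q w).1 hw
    have h5 := (hVm Q' w).1 hw'
    have h6 := (g2 Q M x w (hd2m Q w hw) h4.2.1 h4.2.2 Q').2.1 (by
      intro h7
      apply hne
      have h8 := (hT Q.1 Q.2).1.associated_of_dvd (hT Q'.1 Q'.2).1 h7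
      exact Subtype.ext (eq_of_monic_of_associated (hT Q.1 Q.2).2.1 (hT Q'.1 Q'.2).2.1 h8))
    exact absurd h5.2.2 (by rw [h6]; exact lt_irrefl _)
  refine ⟨Finset.univ.biUnion V, ?_, ?_⟩
  · intro w hw
    rw [Finset.mem_biUnion] at hw
    obtain ⟨Q, -, hw⟩ := hw
    have h4 := (hVm Q w).1 hw
    refine ⟨fun p hp => h4.1 p (by simp [hp]) (hS p hp), h4.2.1, ?_⟩
    refine g1 Q M x w (hd1m Q w hw) h4.2.1 h4.2.2 ?_
    rw [← aeval_aeval]
    exact hRx
  · rw [Finset.sum_biUnion (fun Q _ Q' _ h => hdisj Q Q' h)]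
    have h4 : ∀ Q : T, ((wt r Q.1.natDegree : ℝ) - κ') * Height.logHeight₁ x ≤
        ∑ w ∈ V Q, lN w + C Q := fun Q =>
      hC Q M x hM hx hxE (V Q) fun w hw => (hVm Q w).2 hw
    have h5 := Finset.sum_le_sum fun Q (_ : Q ∈ (Finset.univ : Finset T)) => h4 Q
    rw [Finset.sum_add_distrib, ← Finset.sum_mul, Finset.sum_sub_distrib, Finset.sum_const,
      Finset.card_univ, Fintype.card_coe, nsmul_eq_mul] at h5
    have h6 : ∑ Q : T, (wt r Q.1.natDegree : ℝ) = ((∑ Q ∈ T, wt r Q.natDegree : ℕ) : ℝ) := by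
      rw [Nat.cast_sum, ← Finset.sum_coe_sort T]
    rw [h6] at h5
    have h7 : (T.card : ℝ) * κ' ≤ κ := by
      rw [hκ']
      rw [mul_div_assoc', div_le_iff₀ hc]
      nlinarith
    have h8 : 0 ≤ logHeight₁ x := zero_le_logHeight₁ x
    refine le_trans ?_ h5
    exact mul_le_mul_of_nonneg_right (by linarith) h8

theorem inf_part (hE : ExcB K r E) {a b q s : ℕ} {A B : Fin 2 → K[X]} (hA : IsMap a A)
    (hB : IsMap b B) {F : MvPolynomial (Fin 2 ⊕ Fin 2) K}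
    (hF : F.IsWeightedHomogeneous wts (q, s))
    (hR : MvPolynomial.aeval (Sum.elim A B) F ≠ 0) (S : Finset ℕ) (hS : ∀ p ∈ S, p ≠ 0)
    (κ : ℝ) (hκ : 0 < κ) :
    ∃ C : ℝ, ∀ (M : Type) [Field M] [NumberField M] [Algebra K M] (x : M), finrank K M = r →
      (minpoly K x).natDegree = r → minpoly K x ∉ E → x ≠ 0 →
      aeval x (MvPolynomial.aeval (Sum.elim A B) F) ≠ 0 →
      ∃ W : Finset (HeightOneSpectrum (𝓞 M)),
        (∀ w ∈ W, (∀ p ∈ S, (p : 𝓞 M) ∉ w.asIdeal) ∧ 1 < w.valuation M x ∧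
          lN w ≤ lam F q s w (fun i => aeval x (A i)) (fun i => aeval x (B i))) ∧
        (((if (MvPolynomial.aeval (Sum.elim A B) F).natDegree < a * q + b * s then 1 else 0 : ℕ) :
          ℝ) - κ) * logHeight₁ x ≤ ∑ w ∈ W, lN w + C := by
  classical
  have hF0 : F ≠ 0 := by rintro rfl; simp at hR
  by_cases hdeg : (MvPolynomial.aeval (Sum.elim A B) F).natDegree < a * q + b * s
  · have hAr : ∃ i, ¬ X ∣ reflect a (A i) := by
      obtain ⟨i, hi⟩ := hA.coeff_ne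
      exact ⟨i, fun h => hi (by rw [X_dvd_iff, refl_coeff_zero] at h; exact h)⟩
    have hBr : ∃ i, ¬ X ∣ reflect b (B i) := by
      obtain ⟨i, hi⟩ := hB.coeff_ne
      exact ⟨i, fun h => hi (by rw [X_dvd_iff, refl_coeff_zero] at h; exact h)⟩
    obtain ⟨d, hd, g⟩ := near_lam (k := K) irreducible_X (fun i => reflect a (A i))
      (fun i => reflect b (B i)) q s hF0 hAr hBr
      (dvd_refl_top hA.degree_le hB.degree_le hF hdeg)
    obtain ⟨C, hC⟩ := hE.poles (S ∪ {d}) κ hκ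
    refine ⟨C, fun M _ _ _ x hM hx hxE hx0 hRx => ?_⟩
    have hfin : {w : HeightOneSpectrum (𝓞 M) | (∀ p ∈ S ∪ {d}, p ≠ 0 → (p : 𝓞 M) ∉ w.asIdeal) ∧
        1 < w.valuation M x}.Finite :=
      (HeightOneSpectrum.Support.finite (𝓞 M) x).subset fun w hw => hw.2
    refine ⟨hfin.toFinset, ?_, ?_⟩
    · intro w hw
      rw [Set.Finite.mem_toFinset] at hw
      obtain ⟨h1, h2⟩ := hw
      refine ⟨fun p hp => h1 p (by simp [hp]) (hS p hp), h2, ?_⟩
      have h3 := (Pool.Agent.J6H73.SB.val_inv_lt (w := w) hx0).2 h2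
      have e1 : (fun i => aeval x⁻¹ (reflect a (A i))) =
          fun i => (x⁻¹) ^ a * aeval x (A i) := by
        funext i
        exact refl_eval hx0 (hA.degree_le i)
      have e2 : (fun i => aeval x⁻¹ (reflect b (B i))) =
          fun i => (x⁻¹) ^ b * aeval x (B i) := by
        funext i
        exact refl_eval hx0 (hB.degree_le i)
      have hxi : x⁻¹ ≠ 0 := inv_ne_zero hx0
      have h4 := g M x⁻¹ w (h1 d (by simp) hd) h3.le (by rw [aeval_X]; exact h3) (by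
        rw [e1, e2, ev_smul hF]
        rw [aeval_aeval] at hRx
        exact mul_ne_zero (mul_ne_zero (pow_ne_zero _ (pow_ne_zero _ hxi))
          (pow_ne_zero _ (pow_ne_zero _ hxi))) hRx)
      rw [e1, e2, lam_smul hF w (pow_ne_zero _ hxi) (pow_ne_zero _ hxi)] at h4
      exact h4
    · rw [if_pos hdeg, Nat.cast_one]
      refine hC M x hM hx hxE hx0 _ fun w h1 h2 => ?_
      rw [Set.Finite.mem_toFinset]
      exact ⟨h1, h2⟩
  · refine ⟨0, fun M _ _ _ x hM hx hxE hx0 hRx => ⟨∅, by simp, ?_⟩⟩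
    rw [if_neg hdeg]
    simp only [Nat.cast_zero, zero_sub, Finset.sum_empty, add_zero]
    have h8 : 0 ≤ logHeight₁ x := zero_le_logHeight₁ x
    nlinarith

/-- the truncated inequality over `K (x)` -/
theorem main1 (hE : ExcB K r E) {a b q s : ℕ} {A B : Fin 2 → K[X]} (hA : IsMap a A)
    (hB : IsMap b B) {F : MvPolynomial (Fin 2 ⊕ Fin 2) K}
    (hF : F.IsWeightedHomogeneous wts (q, s))
    (hR : MvPolynomial.aeval (Sum.elim A B) F ≠ 0) (S : Finset ℕ) (hS : ∀ p ∈ S, p ≠ 0)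
    (κ : ℝ) (hκ : 0 < κ) :
    ∃ C : ℝ, ∀ (M : Type) [Field M] [NumberField M] [Algebra K M] (x : M), finrank K M = r →
      (minpoly K x).natDegree = r → minpoly K x ∉ E →
      aeval x (MvPolynomial.aeval (Sum.elim A B) F) ≠ 0 →
      ((pts r (MvPolynomial.aeval (Sum.elim A B) F) (a * q + b * s) : ℝ) - κ) * logHeight₁ x ≤
        cnt S F q s (fun i => aeval x (A i)) (fun i => aeval x (B i)) + C := by
  classical
  obtain ⟨C1, h1⟩ := fin_part (q := q) (s := s) hE hA hB hR S hS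
    (normalizedFactors (MvPolynomial.aeval (Sum.elim A B) F)).toFinset (fun Q hQ =>
      factor_props hR (Multiset.mem_toFinset.1 hQ)) (κ / 2) (by positivity)
  obtain ⟨C2, h2⟩ := inf_part hE hA hB hF hR S hS (κ / 2) (by positivity)
  refine ⟨|C1| + |C2|, fun M _ _ _ x hM hx hxE hRx => ?_⟩
  have hRx' := hRx
  rw [aeval_aeval] at hRx'
  by_cases hx0 : x = 0
  · have h3 := cnt_ge S hF (hA.eval_ne x) (hB.eval_ne x) hRx' ∅ (by simp)
    rw [Finset.sum_empty] at h3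
    have h4 : logHeight₁ x = 0 := by rw [hx0, logHeight₁_zero]
    rw [h4, mul_zero]
    positivity
  obtain ⟨W1, a1, a2⟩ := h1 M x hM hx hxE hRx
  obtain ⟨W2, b1, b2⟩ := h2 M x hM hx hxE hx0 hRx
  have hdisj : Disjoint W1 W2 := by
    rw [Finset.disjoint_left]
    intro w hw1 hw2
    exact absurd (b1 w hw2).2.1 (not_lt.2 (a1 w hw1).2.1)
  have h3 := cnt_ge S hF (hA.eval_ne x) (hB.eval_ne x) hRx' (W1 ∪ W2) (by
    intro w hw
    rcases Finset.mem_union.1 hw with hw | hw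
    · exact ⟨(a1 w hw).1, (a1 w hw).2.2⟩
    · exact ⟨(b1 w hw).1, (b1 w hw).2.2⟩)
  rw [Finset.sum_union hdisj] at h3
  have h4 := le_abs_self C1
  have h5 := le_abs_self C2
  have e : ((pts r (MvPolynomial.aeval (Sum.elim A B) F) (a * q + b * s) : ℝ) - κ) *
      logHeight₁ x =
      ((∑ Q ∈ (normalizedFactors (MvPolynomial.aeval (Sum.elim A B) F)).toFinset,
        wt r Q.natDegree : ℕ) - κ / 2) * logHeight₁ x +
      (((if (MvPolynomial.aeval (Sum.elim A B) F).natDegree < a * q + b * s then 1 else 0 : ℕ) :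
          ℝ) - κ / 2) * logHeight₁ x := by
    unfold pts
    rw [Nat.cast_add]
    ring
  rw [e]
  linarith

end Over

end Pool.Agent.J6H73.P1
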