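import Pool.Agent.J6H73.P1.Curve
import Pool.Agent.Y725.LS.Core
import Pool.Agent.N572.DR.Inv
import Pool.Agent.N751.LS.Pole

/-!
# Closed points of degree at most `2 r + 1`: passage to a splitting field and back
-/

set_option autoImplicit false
set_option linter.unusedSectionVars false

namespace Pool.Agent.J6H73.P1

open NumberField IsDedekindDomain Module Polynomial Height Pool.Agent.N753.DR

section Tower

variable {M N : Type} [Field M] [NumberField M] [Field N] [NumberField N] [Algebra M N]

/-- the prime below -/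
noncomputable abbrev dn (M : Type) [Field M] [NumberField M] {N : Type} [Field N] [NumberField N]
    [Algebra M N] (w : HeightOneSpectrum (𝓞 N)) : HeightOneSpectrum (𝓞 M) :=
  w.under (𝓞 M)

theorem dn_val (w : HeightOneSpectrum (𝓞 N)) (x : M) : ∃ e : ℕ, e ≠ 0 ∧
    (dn M w).valuation M x ^ e = w.valuation N (algebraMap M N x) := by
  have h0 : w.asIdeal.LiesOver (dn M w).asIdeal := ⟨rfl⟩
  exact ⟨_, Ideal.IsDedekindDomain.ramificationIdx'_ne_zero_of_liesOver _ (dn M w).ne_bot,
    HeightOneSpectrum.valuation_liesOver N (dn M w) w x⟩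

theorem sum_up (W : Finset (HeightOneSpectrum (𝓞 M))) (V : Finset (HeightOneSpectrum (𝓞 N)))
    (h : ∀ w ∈ V, dn M w ∈ W) : ∑ w ∈ V, lN w ≤ finrank M N * ∑ v ∈ W, lN v := by
  classical
  rw [← Finset.sum_fiberwise_of_maps_to h, Finset.mul_sum]
  refine Finset.sum_le_sum fun v _ => ?_
  have h1 := Pool.Agent.Y725.LS.sum_ldeg (K := M) (L := N) (FinitePlace.mk v)
    ((V.filter fun w => dn M w = v).image FinitePlace.mk) (by
      intro u hu
      rw [Finset.mem_image] at hu
      obtain ⟨w, hw, rfl⟩ := hu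
      rw [Finset.mem_filter] at hw
      unfold Pool.Agent.Y725.LS.below
      rw [FinitePlace.maximalIdeal_mk]
      exact congrArg FinitePlace.mk hw.2)
  have hinj : Set.InjOn (FinitePlace.mk : HeightOneSpectrum (𝓞 N) → FinitePlace N)
      (V.filter fun w => dn M w = v) := by
    intro w₁ _ w₂ _ h12
    rw [← FinitePlace.maximalIdeal_mk w₁, ← FinitePlace.maximalIdeal_mk w₂, h12]
  rw [Finset.sum_image hinj] at h1
  have h2 : ∀ w ∈ V.filter fun w => dn M w = v,
      lN w ≤ (Pool.Agent.Y725.LS.ldeg M (FinitePlace.mk w) : ℝ) * lN v := by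
    intro w hw
    rw [Finset.mem_filter] at hw
    have h3 := Pool.Agent.Y725.LS.Nm_below M (FinitePlace.mk w)
    have h4 : Pool.Agent.Y725.LS.below M (FinitePlace.mk w) = FinitePlace.mk v := by
      unfold Pool.Agent.Y725.LS.below
      rw [FinitePlace.maximalIdeal_mk]
      exact congrArg FinitePlace.mk hw.2
    have h5 : lN w = ((Pool.Agent.Y725.LS.below M (FinitePlace.mk w)).maximalIdeal.asIdeal.inertiaDeg'
        (FinitePlace.mk w).maximalIdeal.asIdeal : ℝ) * lN v := by
      have h6 : Real.log (TH951.NF.Nm (FinitePlace.mk w) : ℝ) = lN w := by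
        unfold TH951.NF.Nm lN
        rw [FinitePlace.maximalIdeal_mk]
      have h7 : Real.log (TH951.NF.Nm (FinitePlace.mk v) : ℝ) = lN v := by
        unfold TH951.NF.Nm lN
        rw [FinitePlace.maximalIdeal_mk]
      rw [← h6, h3, h4]
      push_cast
      rw [Real.log_pow, h7]
    rw [h5]
    refine mul_le_mul_of_nonneg_right ?_ (Real.log_natCast_nonneg _)
    unfold Pool.Agent.Y725.LS.ldeg
    push_cast
    exact le_mul_of_one_le_left (Nat.cast_nonneg _) (by
      exact_mod_cast Pool.Agent.Y725.LS.ram_pos M (FinitePlace.mk w))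
  calc _ ≤ ∑ w ∈ V.filter fun w => dn M w = v,
        (Pool.Agent.Y725.LS.ldeg M (FinitePlace.mk w) : ℝ) * lN v := Finset.sum_le_sum h2
    _ = ((∑ w ∈ V.filter fun w => dn M w = v,
        Pool.Agent.Y725.LS.ldeg M (FinitePlace.mk w) : ℕ) : ℝ) * lN v := by
        rw [Nat.cast_sum, Finset.sum_mul]
    _ ≤ _ := mul_le_mul_of_nonneg_right (by exact_mod_cast h1) (Real.log_natCast_nonneg _)

end Tower

/-- a compositum -/
theorem exists_comp {K : Type} [Field K] [NumberField K] (k : Type) [Field k] [NumberField k]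
    [Algebra K k] (M : Type) [Field M] [NumberField M] [Algebra K M] (x : M)
    (hx : IntermediateField.adjoin K {x} = ⊤) :
    ∃ (N : Type) (_ : Field N) (_ : NumberField N) (_ : Algebra K N) (_ : Algebra k N)
      (_ : Algebra M N), IsScalarTower K k N ∧ IsScalarTower K M N ∧
      IntermediateField.adjoin k {algebraMap M N x} = ⊤ := by
  classical
  have hfdk : FiniteDimensional K k := Module.Finite.of_restrictScalars_finite ℚ K k
  have hfdM : FiniteDimensional K M := Module.Finite.of_restrictScalars_finite ℚ K M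
  let Ω := AlgebraicClosure M
  have hK : IsScalarTower K M Ω := inferInstance
  have hΩ : Algebra.IsAlgebraic K k := inferInstance
  let φ : k →ₐ[K] Ω := IsAlgClosed.lift
  letI : Algebra k Ω := φ.toRingHom.toAlgebra
  haveI hkΩ : IsScalarTower K k Ω := IsScalarTower.of_algebraMap_eq fun c => (φ.commutes c).symm
  set ξ : Ω := algebraMap M Ω x with hξ
  have hint : IsIntegral k ξ := by
    have h1 : IsIntegral K ξ := (IsIntegral.of_finite K x).algebraMap
    exact h1.tower_top
  let N := IntermediateField.adjoin k {ξ}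
  haveI : FiniteDimensional k N := IntermediateField.adjoin.finiteDimensional hint
  haveI : NumberField N := NumberField.of_module_finite k N
  -- the map of `M`
  have hmem : ∀ m : M, algebraMap M Ω m ∈ N := by
    have h1 : (N.restrictScalars K).comap (IsScalarTower.toAlgHom K M Ω) = ⊤ := by
      rw [eq_top_iff, ← hx, IntermediateField.adjoin_le_iff, Set.singleton_subset_iff]
      exact IntermediateField.mem_adjoin_simple_self k ξ
    intro m
    have h2 : m ∈ (N.restrictScalars K).comap (IsScalarTower.toAlgHom K M Ω) := by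
      rw [h1]; trivial
    exact h2
  let ψ : M →+* N := (algebraMap M Ω).codRestrict N.toSubfield hmem
  letI : Algebra M N := ψ.toAlgebra
  refine ⟨N, inferInstance, inferInstance, ((algebraMap k N).comp (algebraMap K k)).toAlgebra,
    inferInstance, inferInstance, ?_, ?_, ?_⟩
  · letI : Algebra K N := ((algebraMap k N).comp (algebraMap K k)).toAlgebra
    exact IsScalarTower.of_algebraMap_eq fun c => rfl
  · letI : Algebra K N := ((algebraMap k N).comp (algebraMap K k)).toAlgebra
    refine IsScalarTower.of_algebraMap_eq fun c => ?_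
    apply Subtype.ext
    show algebraMap k Ω (algebraMap K k c) = algebraMap M Ω (algebraMap K M c)
    rw [← IsScalarTower.algebraMap_apply K k Ω, ← IsScalarTower.algebraMap_apply K M Ω]
  · have h1 : algebraMap M N x = IntermediateField.AdjoinSimple.gen k ξ := Subtype.ext rfl
    rw [h1]
    have h2 : finrank k N = (minpoly k (IntermediateField.AdjoinSimple.gen k ξ)).natDegree := by
      rw [IntermediateField.adjoin.finrank hint, IntermediateField.minpoly_gen]
    exact (Field.primitive_element_iff_minpoly_natDegree_eq k _).2 h2.symm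

/-- the bound for the closed points of degree at most `2 r + 1`, from the bound over extensions -/
theorem zeros_up {K : Type} [Field K] [NumberField K] {r : ℕ} {E : Set K[X]}
    (hE : ∀ (k : Type) [Field k] [NumberField k] [Algebra K k] (q : ℕ) (a : Fin q → k),
      Function.Injective a → (∀ j, (minpoly K (a j)).natDegree ≤ 2 * r + 1) →
      ∀ (S : Finset ℕ) (κ : ℝ), 0 < κ → ∃ C : ℝ, ∀ (N : Type) [Field N] [NumberField N]
        [Algebra K N] [Algebra k N] [IsScalarTower K k N] (x : N),
        IntermediateField.adjoin k {x} = ⊤ → (minpoly K x).natDegree = r → minpoly K x ∉ E →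
        (∀ j, x ≠ algebraMap k N (a j)) →
        ∀ W : Finset (HeightOneSpectrum (𝓞 N)),
          (∀ w, (∀ p ∈ S, p ≠ 0 → (p : 𝓞 N) ∉ w.asIdeal) → w.valuation N x ≤ 1 →
            (∃ j, w.valuation N (x - algebraMap k N (a j)) < 1) → w ∈ W) →
          (q - κ) * logHeight₁ x ≤ ∑ w ∈ W, lN w + C)
    (S : Finset ℕ) {F : K[X]} (hF : Irreducible F) (hdeg : F.natDegree ≤ 2 * r + 1)
    (κ : ℝ) (hκ : 0 < κ) : ∃ C : ℝ, ∀ (M : Type) [Field M] [NumberField M] [Algebra K M] (x : M),
      finrank K M = r → (minpoly K x).natDegree = r → minpoly K x ∉ E →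
      ∀ W : Finset (HeightOneSpectrum (𝓞 M)), (∀ w, Near S F x w → w ∈ W) →
        ((F.natDegree : ℝ) - κ) * logHeight₁ x ≤ ∑ w ∈ W, lN w + C := by
  classical
  -- the splitting field
  let k := F.SplittingField
  haveI : NumberField k := NumberField.of_module_finite K k
  have hsp : (F.map (algebraMap K k)).Splits := SplittingField.splits F
  have hF0 : F ≠ 0 := hF.ne_zero
  set P : Finset k := (F.map (algebraMap K k)).roots.toFinset with hP
  have hPc : P.card = F.natDegree := by
    rw [hP, Multiset.toFinset_card_of_nodup (nodup_roots hF.separable.map),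
      ← hsp.natDegree_eq_card_roots, natDegree_map]
  have hPr : ∀ τ ∈ P, aeval τ F = 0 := by
    intro τ hτ
    rw [hP, Multiset.mem_toFinset, mem_roots', IsRoot.def, eval_map_algebraMap] at hτ
    exact hτ.2
  have hPd : ∀ τ ∈ P, (minpoly K τ).natDegree ≤ 2 * r + 1 := by
    intro τ hτ
    refine le_trans ?_ hdeg
    exact natDegree_le_of_dvd (minpoly.dvd K τ (hPr τ hτ)) hF0
  set e := P.equivFin.symm with he
  -- the primes
  have h1 : ∀ j, ∃ d : ℕ, d ≠ 0 ∧ ∀ (N : Type) [Field N] [NumberField N]
      [Algebra k N] (x : N) (w : HeightOneSpectrum (𝓞 N)), (d : 𝓞 N) ∉ w.asIdeal →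
      w.valuation N x ≤ 1 → w.valuation N (aeval x (X - C (e j : k))) < 1 →
      w.valuation N (aeval x (F.map (algebraMap K k))) < 1 := by
    intro j
    obtain ⟨d, hd, h⟩ := val_fin (irreducible_X_sub_C (e j : k))
      (fun _ : Fin 1 => F.map (algebraMap K k))
    refine ⟨d, hd, fun N _ _ _ x w h1 h2 h3 => (h N x w h1 h2 h3 0).2.2 ?_⟩
    rw [dvd_iff_isRoot, IsRoot.def, eval_map_algebraMap]
    exact hPr _ (e j).2
  choose d hd g using h1
  obtain ⟨C0, hC0⟩ := hE k P.card (fun j => (e j : k))
    (fun i j h => e.injective (Subtype.ext h)) (fun j => hPd _ (e j).2)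
    (S ∪ Finset.univ.image d) κ hκ
  obtain ⟨C2, hC20, hC2⟩ := Pool.Agent.N751.LS.ht_poly_root (K := K) F hF0
  have hC30 : 0 ≤ (F.natDegree : ℝ) * ((finrank ℚ K * r : ℕ) * C2) :=
    mul_nonneg (Nat.cast_nonneg _) (mul_nonneg (Nat.cast_nonneg _) hC20)
  refine ⟨|C0| + F.natDegree * ((finrank ℚ K * r : ℕ) * C2), fun M _ _ _ x hM hx hxE W hW => ?_⟩
  have hfdM : FiniteDimensional K M := Module.Finite.of_restrictScalars_finite ℚ K M
  have htop : IntermediateField.adjoin K {x} = ⊤ :=
    (Field.primitive_element_iff_minpoly_natDegree_eq K x).2 (by rw [hx, hM])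
  obtain ⟨N, _, _, _, _, _, _, _, hN⟩ := exists_comp k M x htop
  have hfdN : FiniteDimensional M N := Module.Finite.of_restrictScalars_finite ℚ M N
  have hmin : minpoly K (algebraMap M N x) = minpoly K x :=
    minpoly.algebraMap_eq (algebraMap M N).injective x
  have hn : (1 : ℝ) ≤ finrank M N := by
    exact_mod_cast (finrank_pos : 0 < finrank M N)
  rcases (zero_le_logHeight₁ x).eq_or_lt with h0 | h0
  · rw [← h0, mul_zero]
    exact add_nonneg (Finset.sum_nonneg fun w _ => Real.log_natCast_nonneg _)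
      (add_nonneg (abs_nonneg _) hC30)
  by_cases hroot : ∃ j, algebraMap M N x = algebraMap k N (e j : k)
  · obtain ⟨j, hj⟩ := hroot
    have h2 : aeval x F = 0 := by
      apply (algebraMap M N).injective
      rw [map_zero, ← aeval_algebraMap_apply, hj, aeval_algebraMap_apply, hPr _ (e j).2, map_zero]
    have h3 := hC2 M x h2
    have h4 : finrank ℚ K * finrank K M = finrank ℚ M := finrank_mul_finrank ℚ K M
    rw [← h4, hM] at h3
    have h5 : ((F.natDegree : ℝ) - κ) * logHeight₁ x ≤
        F.natDegree * ((finrank ℚ K * r : ℕ) * C2) :=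
      (mul_le_mul_of_nonneg_right (by linarith : (F.natDegree : ℝ) - κ ≤ F.natDegree) h0.le).trans
        (mul_le_mul_of_nonneg_left h3 (Nat.cast_nonneg _))
    have h6 : 0 ≤ ∑ w ∈ W, lN w := Finset.sum_nonneg fun w _ => Real.log_natCast_nonneg _
    have h7 := abs_nonneg C0
    linarith
  push Not at hroot
  set V : Set (HeightOneSpectrum (𝓞 N)) := {w |
    (∀ p ∈ S ∪ Finset.univ.image d, p ≠ 0 → (p : 𝓞 N) ∉ w.asIdeal) ∧
      w.valuation N (algebraMap M N x) ≤ 1 ∧
      ∃ j, w.valuation N (algebraMap M N x - algebraMap k N (e j : k)) < 1} with hV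
  have hVW : ∀ w ∈ V, dn M w ∈ W := by
    intro w hw
    obtain ⟨h2, h3, j, h4⟩ := hw
    apply hW
    refine ⟨fun p hp hp0 h5 => ?_, ?_, ?_⟩
    · refine h2 p (by simp [hp]) hp0 ?_
      have h6 : algebraMap (𝓞 M) (𝓞 N) (p : 𝓞 M) ∈ w.asIdeal := h5
      rwa [map_natCast] at h6
    · obtain ⟨m, hm, h5⟩ := dn_val w x
      rw [← h5] at h3
      exact (pow_le_one_iff hm).1 h3
    · have h5 := g j N (algebraMap M N x) w (h2 _ (by simp) (hd j)) h3 (by
        rw [map_sub, aeval_X, aeval_C]; exact h4)
      rw [aeval_map_algebraMap, aeval_algebraMap_apply] at h5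
      obtain ⟨m, hm, h6⟩ := dn_val w (aeval x F)
      rw [← h6] at h5
      exact (pow_lt_one_iff hm).1 h5
  have hfin : V.Finite := by
    have h2 : (⋃ j, {w : HeightOneSpectrum (𝓞 N) |
        w.valuation N (algebraMap M N x - algebraMap k N (e j : k)) < 1}).Finite := by
      refine Set.finite_iUnion fun j => ?_
      have h3 : algebraMap M N x - algebraMap k N (e j : k) ≠ 0 := sub_ne_zero.2 (hroot j)
      refine (HeightOneSpectrum.Support.finite (𝓞 N)
        (algebraMap M N x - algebraMap k N (e j : k))⁻¹).subset fun w hw => ?_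
      show 1 < w.valuation N (algebraMap M N x - algebraMap k N (e j : k))⁻¹
      have h4 : w.valuation N (algebraMap M N x - algebraMap k N (e j : k)) < 1 := hw
      have h5 : 0 < w.valuation N (algebraMap M N x - algebraMap k N (e j : k)) := by
        rw [zero_lt_iff]
        exact (Valuation.ne_zero_iff _).2 h3
      rw [map_inv₀]
      exact (one_lt_inv₀ h5).2 h4
    refine h2.subset fun w hw => ?_
    obtain ⟨-, -, j, hj⟩ := hw
    exact Set.mem_iUnion.2 ⟨j, hj⟩
  have h2 := hC0 N (algebraMap M N x) hN (by rw [hmin, hx]) (by rwa [hmin]) hroot hfin.toFinset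
    (fun w h4 h5 h6 => by
      rw [Set.Finite.mem_toFinset]
      exact ⟨h4, h5, h6⟩)
  have h3 := sum_up (M := M) W hfin.toFinset fun w hw => hVW w ((Set.Finite.mem_toFinset _).1 hw)
  rw [Pool.Agent.N572.DR.Inv.ht_ext, hPc] at h2
  have h4 : (finrank M N : ℝ) * (((F.natDegree : ℝ) - κ) * logHeight₁ x) ≤
      finrank M N * (∑ w ∈ W, lN w + (|C0| + F.natDegree * ((finrank ℚ K * r : ℕ) * C2))) := by
    have h5 : C0 ≤ finrank M N * |C0| :=
      (le_abs_self C0).trans (le_mul_of_one_le_left (abs_nonneg _) hn)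
    have h6 : 0 ≤ (finrank M N : ℝ) * (F.natDegree * ((finrank ℚ K * r : ℕ) * C2)) :=
      mul_nonneg (by linarith) hC30
    rw [mul_add, mul_add]
    linarith
  exact le_of_mul_le_mul_left h4 (by linarith)

end Pool.Agent.J6H73.P1
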